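import Pool.Agent.Q11.CZ.Art

/-!
# Functions on the abelianisation, and sums of the two kinds
-/

set_option autoImplicit false

open scoped Classical commutatorElement

namespace Pool.Agent.Q11.CZ

variable {G : Type*} [Group G] [Fintype G] {c : G}

/-- `f` factors through the abelianisation. -/
def AbInv (f : G → ℚ) : Prop := ∀ g : G, ∀ z ∈ commutator G, f (g * z) = f g

omit [Fintype G] in
lemma conj_eq (g h : G) : ∃ z ∈ commutator G, h⁻¹ * g * h = g * z := by
  refine ⟨⁅g⁻¹, h⁻¹⁆, Subgroup.commutator_mem_commutator (Subgroup.mem_top _)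
    (Subgroup.mem_top _), ?_⟩
  rw [commutatorElement_def]
  group

section
variable {X : Type*} [Fintype X] [MulAction G X]

lemma a0_ab (hN : ∀ z ∈ commutator G, ∀ x : X, z • x = x) (x : X) (Φ : Finset X) (g : G) :
    a0 x Φ g = if g • x ∈ Φ then 1 else 0 := by
  rw [a0_eq_cav]
  have h1 : IsClass (fun g : G => if g • x ∈ Φ then (1 : ℚ) else 0) := by
    intro g h
    obtain ⟨z, hz, hz'⟩ := conj_eq g h
    simp only [hz', mul_smul, hN z hz]
  rw [cav_of_isClass h1]

/-- functions on the abelianisation are combinations of Colmez's functions -/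
theorem mem_of_abInv (hc : ∀ g, c * g = g * c) (hc2 : c * c = 1) (V : Submodule ℚ (G → ℚ))
    (h1 : (fun _ => 1 : G → ℚ) ∈ V) [MulAction.IsPretransitive G X] (x₀ : X)
    (hN : ∀ z ∈ commutator G, ∀ x : X, z • x = x)
    (hst : ∀ g : G, g • x₀ = x₀ → g ∈ commutator G)
    (hV : ∀ Φ : Finset X, IsHalf c Φ → a0 x₀ Φ ∈ V)
    {f : G → ℚ} {s : ℚ} (hs : ∀ g, f g + f (c * g) = s) (hab : AbInv f) : f ∈ V := by
  set u : G → ℚ := f - (s / 2) • (fun _ => 1) with hu
  have hodd : ∀ g, u (c * g) = - u g := by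
    intro g
    simp only [hu, Pi.sub_apply, Pi.smul_apply, smul_eq_mul, mul_one]
    linarith [hs g]
  have habu : AbInv u := by
    intro g z hz
    simp only [hu, Pi.sub_apply, Pi.smul_apply, smul_eq_mul, mul_one, hab g z hz]
  have h8 : f = u + (s / 2) • (fun _ => 1) := by rw [hu]; simp
  rw [h8]
  refine V.add_mem ?_ (V.smul_mem _ h1)
  -- `u` is a function on `X`
  have hsurj : ∀ x : X, ∃ g : G, g • x₀ = x := fun x => MulAction.exists_smul_eq G x₀ x
  choose r hr using hsurj
  have hF : ∀ g : G, u (r (g • x₀)) = u g := by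
    intro g
    have h2 : g⁻¹ * r (g • x₀) ∈ commutator G := by
      apply hst
      rw [mul_smul, hr, inv_smul_smul]
    have h3 := habu g _ h2
    rwa [mul_inv_cancel_left] at h3
  by_cases hne : (halves c X).Nonempty
  · obtain ⟨Φ₀, hΦ₀⟩ := hne
    rw [mem_halves] at hΦ₀
    have h4 : u = ∑ x ∈ Φ₀, u (r x) • (a0 x₀ Φ₀ - a0 x₀ (symmDiff Φ₀ {x, c • x})) := by
      funext g
      rw [Finset.sum_apply]
      simp only [Pi.smul_apply, Pi.sub_apply, smul_eq_mul, a0_ab hN]
      have h5 : ∀ x ∈ Φ₀, u (r x) * ((if g • x₀ ∈ Φ₀ then (1 : ℚ) else 0) -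
          (if g • x₀ ∈ symmDiff Φ₀ {x, c • x} then (1 : ℚ) else 0)) =
          (if g • x₀ = x then u (r x) else 0) - (if g • x₀ = c • x then u (r x) else 0) := by
        intro x hx
        have hcx : c • x ∉ Φ₀ := by rw [hΦ₀]; exact fun h => h hx
        have hne : x ≠ c • x := fun h => hcx (h ▸ hx)
        by_cases h6 : g • x₀ = x
        · have h7 : g • x₀ ∉ symmDiff Φ₀ {x, c • x} := by
            rw [Finset.mem_symmDiff, h6]; simp [hx]
          rw [if_neg h7, h6, if_pos hx, if_pos rfl, if_neg hne]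
          ring
        · by_cases h7 : g • x₀ = c • x
          · have h9 : g • x₀ ∈ symmDiff Φ₀ {x, c • x} := by
              rw [Finset.mem_symmDiff, h7]; simp [hcx]
            rw [if_pos h9, h7, if_neg hcx, if_neg hne.symm, if_pos rfl]
            ring
          · have h9 : g • x₀ ∈ symmDiff Φ₀ {x, c • x} ↔ g • x₀ ∈ Φ₀ := by
              rw [Finset.mem_symmDiff]; simp [h6, h7]
            simp only [h9, if_neg h6, if_neg h7]
            ring
      rw [Finset.sum_congr rfl h5, Finset.sum_sub_distrib, Finset.sum_ite_eq]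
      have h10 : ∀ x : X, (g • x₀ = c • x) ↔ ((c * g) • x₀ = x) := by
        intro x
        constructor
        · intro h; rw [mul_smul, h, smul_smul_c hc2]
        · intro h; rw [← h, mul_smul, smul_smul_c hc2]
      simp only [h10]
      have h11 : (c * g) • x₀ ∈ Φ₀ ↔ g • x₀ ∉ Φ₀ := by rw [mul_smul]; exact hΦ₀ _
      rw [Finset.sum_ite_eq, hF, hF, hodd]
      by_cases h : g • x₀ ∈ Φ₀
      · have h12 : (c * g) • x₀ ∉ Φ₀ := fun h' => h11.mp h' h
        rw [if_pos h, if_neg h12, sub_zero]
      · have h12 : (c * g) • x₀ ∈ Φ₀ := h11.mpr h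
        rw [if_neg h, if_pos h12]; ring
    rw [h4]
    refine V.sum_mem (fun x _ => V.smul_mem _ (V.sub_mem (hV _ hΦ₀) (hV _ ?_)))
    exact isHalf_toggle hc2 hΦ₀ x
  · have h4 : c • x₀ = x₀ := by
      by_contra h5
      apply hne
      refine exists_half hc2 (fun x hx => h5 ?_)
      obtain ⟨g, rfl⟩ := MulAction.exists_smul_eq G x₀ x
      rw [← mul_smul, hc, mul_smul] at hx
      exact (MulAction.injective g) hx
    have h5 : u = 0 := by
      funext g
      have h6 : u (c * g) = u g := by
        rw [hc g]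
        exact habu g c (hst c h4)
      have := hodd g
      rw [h6] at this
      simp only [Pi.zero_apply]
      linarith
    rw [h5]
    exact V.zero_mem

end

/-- the condition for the sum of the two spaces. -/
def Twist (f : G → ℚ) : Prop := ∀ j : ℕ, j.Coprime (Nat.card G) → ∀ g : G, ∀ z ∈ commutator G,
  f ((g * z) ^ j) - f (g * z) = f (g ^ j) - f g

lemma pow_mul_mem (g z : G) (hz : z ∈ commutator G) (j : ℕ) :
    ∃ z' ∈ commutator G, (g * z) ^ j = g ^ j * z' := by
  have h1 : (QuotientGroup.mk' (commutator G)) ((g ^ j)⁻¹ * (g * z) ^ j) = 1 := by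
    have h2 : (QuotientGroup.mk' (commutator G)) z = 1 :=
      (QuotientGroup.eq_one_iff z).mpr hz
    rw [map_mul, map_inv, map_pow, map_pow, map_mul, h2, mul_one, inv_mul_cancel]
  refine ⟨(g ^ j)⁻¹ * (g * z) ^ j, (QuotientGroup.eq_one_iff _).mp h1, ?_⟩
  rw [mul_inv_cancel_left]

lemma twist_of_abInv {f : G → ℚ} (hf : AbInv f) : Twist f := by
  intro j _ g z hz
  obtain ⟨z', hz', h⟩ := pow_mul_mem g z hz j
  rw [h, hf _ z' hz', hf g z hz]

lemma zpowers_pow {j : ℕ} (hj : j.Coprime (Nat.card G)) (g : G) :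
    Subgroup.zpowers (g ^ j) = Subgroup.zpowers g := by
  have h1 : (orderOf g).Coprime j :=
    (Nat.Coprime.coprime_dvd_right (orderOf_dvd_natCard g) hj).symm
  have h2 : orderOf (g ^ j) = orderOf g := Nat.Coprime.orderOf_pow h1
  have hle : Subgroup.zpowers (g ^ j) ≤ Subgroup.zpowers g := by
    rw [Subgroup.zpowers_le]
    exact Subgroup.pow_mem _ (Subgroup.mem_zpowers g) j
  refine Subgroup.eq_of_le_of_card_ge hle ?_
  rw [Nat.card_zpowers, Nat.card_zpowers, h2]

lemma twist_of_zInv {f : G → ℚ} (hf : ZInv f) : Twist f := by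
  intro j hj g z _
  rw [hf _ _ (zpowers_pow hj (g * z)), hf _ _ (zpowers_pow hj g), sub_self, sub_self]

/-- lifting of an exponent. -/
lemma exists_unit {g g' : G} (h : Subgroup.zpowers g = Subgroup.zpowers g') :
    ∃ u : (ZMod (Nat.card G))ˣ, g' = g ^ (u : ZMod (Nat.card G)).val := by
  have hn : NeZero (Nat.card G) := ⟨Nat.card_pos.ne'⟩
  have hm : NeZero (orderOf g) := ⟨(orderOf_pos g).ne'⟩
  have hg' : g' ∈ Subgroup.zpowers g := h ▸ Subgroup.mem_zpowers g'
  rw [← mem_powers_iff_mem_zpowers, Submonoid.mem_powers_iff] at hg'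
  obtain ⟨i, hi⟩ := hg'
  have ho : orderOf g' = orderOf g := by
    rw [← Nat.card_zpowers, ← Nat.card_zpowers, h]
  have hco : i.Coprime (orderOf g) := by
    have h1 : orderOf (g ^ i) = orderOf g / (orderOf g).gcd i := orderOf_pow g
    rw [hi, ho] at h1
    have h2 : (orderOf g).gcd i ∣ orderOf g := Nat.gcd_dvd_left _ _
    have h3 : 0 < orderOf g := orderOf_pos g
    rw [Nat.Coprime, Nat.gcd_comm]
    obtain ⟨t, ht⟩ := h2
    have h4 : 0 < (orderOf g).gcd i := Nat.gcd_pos_of_pos_left _ h3
    have h5 : orderOf g / (orderOf g).gcd i = t := by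
      conv_lhs => enter [1]; rw [ht]
      exact Nat.mul_div_cancel_left t h4
    rw [h5] at h1
    have h6 : (orderOf g).gcd i * t = 1 * t := by rw [← ht, one_mul, h1]
    exact Nat.eq_of_mul_eq_mul_right (by rw [← h1]; exact h3) h6
  obtain ⟨u, hu⟩ := ZMod.unitsMap_surjective (orderOf_dvd_natCard g)
    (ZMod.unitOfCoprime i hco)
  refine ⟨u, ?_⟩
  rw [← hi, pow_eq_pow_iff_modEq, ← ZMod.natCast_eq_natCast_iff]
  have h7 := congrArg (fun v : (ZMod (orderOf g))ˣ => (v : ZMod (orderOf g))) hu
  simp only [ZMod.coe_unitOfCoprime] at h7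
  rw [← h7, ZMod.unitsMap_val]
  rw [ZMod.natCast_val]

/-- A submodule containing all functions of the two kinds contains all functions with the
property `Twist`. -/
theorem mem_of_twist (hc : ∀ g, c * g = g * c) (hc2 : c * c = 1) (hc1 : c ≠ 1)
    (V : Submodule ℚ (G → ℚ))
    (hA : ∀ (f : G → ℚ) (s : ℚ), IsClass f → (∀ g, f g + f (c * g) = s) → ZInv f → f ∈ V)
    (hB : ∀ (f : G → ℚ) (s : ℚ), (∀ g, f g + f (c * g) = s) → AbInv f → f ∈ V)
    {f : G → ℚ} {s : ℚ} (hf : IsClass f) (hs : ∀ g, f g + f (c * g) = s) (ht : Twist f) :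
    f ∈ V := by
  have hn : NeZero (Nat.card G) := ⟨Nat.card_pos.ne'⟩
  set U := (ZMod (Nat.card G))ˣ with hU
  set F : G → ℚ := fun g => (∑ u : U, f (g ^ (u : ZMod (Nat.card G)).val)) / Fintype.card U with hF
  have hU0 : (Fintype.card U : ℚ) ≠ 0 := by
    have : 0 < Fintype.card U := Fintype.card_pos
    exact_mod_cast this.ne'
  have hcop : ∀ u : U, (u : ZMod (Nat.card G)).val.Coprime (Nat.card G) :=
    fun u => ZMod.val_coe_unit_coprime u
  have heven : 2 ∣ Nat.card G := by
    have h1 : orderOf c = 2 := by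
      rw [orderOf_eq_prime_iff]
      · exact ⟨by rw [pow_two, hc2], hc1⟩
    rw [← h1]
    exact orderOf_dvd_natCard c
  have hcpow : ∀ (u : U) (g : G), (c * g) ^ (u : ZMod (Nat.card G)).val =
      c * g ^ (u : ZMod (Nat.card G)).val := by
    intro u g
    have hodd : Odd (u : ZMod (Nat.card G)).val := by
      rw [← Nat.not_even_iff_odd, even_iff_two_dvd]
      intro h
      have := Nat.dvd_gcd h heven
      rw [hcop u] at this
      exact absurd this (by norm_num)
    rw [(show Commute c g from hc g).mul_pow]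
    congr 1
    obtain ⟨t, ht⟩ := hodd
    rw [ht, pow_add, pow_mul, pow_two, hc2, one_pow, one_mul, pow_one]
  have hFcls : IsClass F := by
    intro g h
    simp only [hF]
    congr 1
    refine Finset.sum_congr rfl (fun u _ => ?_)
    have : (h⁻¹ * g * h) ^ (u : ZMod (Nat.card G)).val =
        h⁻¹ * g ^ (u : ZMod (Nat.card G)).val * h := by
      have := conj_pow (a := h⁻¹) (b := g) (i := (u : ZMod (Nat.card G)).val)
      rwa [inv_inv] at this
    rw [this, hf]
  have hFs : ∀ g, F g + F (c * g) = s := by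
    intro g
    simp only [hF]
    rw [← add_div, ← Finset.sum_add_distrib]
    have : ∀ u ∈ (Finset.univ : Finset U), (f (g ^ (u : ZMod (Nat.card G)).val) +
        f ((c * g) ^ (u : ZMod (Nat.card G)).val)) = s := by
      intro u _
      rw [hcpow, hs]
    rw [Finset.sum_congr rfl this, Finset.sum_const, nsmul_eq_mul, Finset.card_univ,
      mul_div_right_comm, div_self hU0, one_mul]
  have hFz : ZInv F := by
    intro g g' h
    obtain ⟨v, hv⟩ := exists_unit h
    simp only [hF]
    congr 1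
    symm
    refine Fintype.sum_equiv (Equiv.mulLeft v) _ _ (fun u => ?_)
    rw [hv, ← pow_mul]
    simp only [Equiv.coe_mulLeft, Units.val_mul, ZMod.val_mul]
    rw [pow_mod_natCard]
  have h1 : F ∈ V := hA F s hFcls hFs hFz
  have h2 : f - F ∈ V := by
    refine hB (f - F) 0 ?_ ?_
    · intro g
      simp only [Pi.sub_apply]
      linarith [hs g, hFs g]
    · intro g z hz
      simp only [Pi.sub_apply, hF]
      have h3 : ∑ u : U, f ((g * z) ^ (u : ZMod (Nat.card G)).val) =
          ∑ u : U, f (g ^ (u : ZMod (Nat.card G)).val) +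
            Fintype.card U * (f (g * z) - f g) := by
        have : ∀ u ∈ (Finset.univ : Finset U), f ((g * z) ^ (u : ZMod (Nat.card G)).val) =
            f (g ^ (u : ZMod (Nat.card G)).val) + (f (g * z) - f g) := by
          intro u _
          have := ht _ (hcop u) g z hz
          linarith
        rw [Finset.sum_congr rfl this, Finset.sum_add_distrib, Finset.sum_const, nsmul_eq_mul,
          Finset.card_univ]
      rw [h3, add_div, mul_div_cancel_left₀ _ hU0]
      ring
  have h3 := V.add_mem h1 h2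
  rwa [add_sub_cancel] at h3

end Pool.Agent.Q11.CZ
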