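import Pool.Agent.Q11.CZ.Red

/-!
# Heights: reduction to half-systems which differ from a subgroup in at most two elements
-/

set_option autoImplicit false

open scoped Classical

namespace Pool.Agent.Q11.CZ

variable {G : Type*} [Group G] [Fintype G] {c : G}

/-- indicator function of a subgroup -/
noncomputable def iH (H : Subgroup G) (g : G) : ℚ := if g ∈ H then 1 else 0

lemma dl_sum (s : G) (F : G → ℚ) : ∑ x : G, dl c s x * F x = F s - F (c * s) := by
  unfold dl
  simp only [sub_mul, ite_mul, one_mul, zero_mul]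
  rw [Finset.sum_sub_distrib]
  simp

section
variable (hc : ∀ g, c * g = g * c) (hc2 : c * c = 1) {H : Subgroup G}
  (hH : ∀ g : G, c * g ∈ H ↔ g ∉ H)

omit [Fintype G] in
include hc2 hH in
lemma ind_flip' [Fintype G] {S : Finset G} (hS : ∀ s ∈ S, s ∈ H) (y : G) :
    (if y ∈ flip c H S then (1 : ℚ) else 0) = iH H y - ∑ s ∈ S, dl c s y := by
  have h1 : ∑ s ∈ S, dl c s y = (if y ∈ S then 1 else 0) - (if c * y ∈ S then 1 else 0) := by
    unfold dl
    rw [Finset.sum_sub_distrib, Finset.sum_ite_eq]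
    congr 1
    have : ∀ x : G, (y = c * x) ↔ (c * y = x) := by
      intro x
      constructor
      · rintro rfl; exact cc hc2 x
      · rintro rfl; exact (cc hc2 y).symm
    simp only [this]
    rw [Finset.sum_ite_eq]
  rw [h1, iH]
  have h2 := mem_flip (c := c) H S y
  by_cases hy : y ∈ H
  · have h3 : c * y ∉ H := by rw [hH]; exact fun h => h hy
    have h4 : c * y ∉ S := fun h => h3 (hS _ h)
    by_cases h5 : y ∈ S
    · have : y ∉ flip c H S := by rw [h2]; tauto
      simp [this, hy, h4, h5]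
    · have : y ∈ flip c H S := by rw [h2]; tauto
      simp [this, hy, h4, h5]
  · have h3 : c * y ∈ H := by rw [hH]; exact hy
    have h4 : y ∉ S := fun h => hy (hS _ h)
    by_cases h5 : c * y ∈ S
    · have : y ∈ flip c H S := by rw [h2]; tauto
      simp [this, hy, h4, h5]
    · have : y ∉ flip c H S := by rw [h2]; tauto
      simp [this, hy, h4, h5]

lemma R_sum (Φ : Finset G) (g : G) :
    R (X := G) Φ g = ∑ x : G, (if x ∈ Φ then (1 : ℚ) else 0) * (if g * x ∈ Φ then (1 : ℚ) else 0) := by
  unfold R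
  simp only [smul_eq_mul]
  rw [Finset.card_filter]
  push_cast
  rw [← Finset.sum_subset (Finset.subset_univ Φ)]
  · refine Finset.sum_congr rfl (fun x hx => ?_)
    rw [if_pos hx, one_mul]
  · intro x _ hx
    rw [if_neg hx, zero_mul]

/-- number of elements of `H` -/
noncomputable def nH (H : Subgroup G) : ℚ := ∑ x : G, iH H x

lemma sum_HH (g : G) : ∑ x : G, iH H x * iH H (g * x) = nH H * iH H g := by
  unfold nH
  rw [Finset.sum_mul]
  refine Finset.sum_congr rfl (fun x _ => ?_)
  unfold iH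
  by_cases hx : x ∈ H
  · have : g * x ∈ H ↔ g ∈ H := Subgroup.mul_mem_cancel_right H hx
    simp [hx, this]
  · simp [hx]

include hc hc2 hH in
lemma sum_Hd (g t : G) (ht : t ∈ H) :
    ∑ x : G, iH H x * dl c t (g * x) = iH H g - iH H (c * g) := by
  have h1 : ∀ x : G, dl c t (g * x) = dl c (g⁻¹ * t) x := by
    intro x
    unfold dl
    have e1 : (g * x = t) ↔ (x = g⁻¹ * t) := by
      rw [eq_inv_mul_iff_mul_eq]
    have e2 : (g * x = c * t) ↔ (x = c * (g⁻¹ * t)) := by
      rw [← mul_assoc, hc g⁻¹, mul_assoc, eq_inv_mul_iff_mul_eq]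
    simp only [e1, e2]
  simp only [h1]
  rw [Finset.sum_congr rfl (fun x _ => mul_comm (iH H x) _), dl_sum]
  have e3 : g⁻¹ * t ∈ H ↔ g ∈ H := by
    rw [Subgroup.mul_mem_cancel_right H ht, inv_mem_iff]
  unfold iH
  have e4 : c * (g⁻¹ * t) ∈ H ↔ c * g ∈ H := by rw [hH, hH, e3]
  simp only [e3, e4]

include hc hc2 hH in
lemma sum_dH (g s : G) (hs : s ∈ H) :
    ∑ x : G, dl c s x * iH H (g * x) = iH H g - iH H (c * g) := by
  rw [dl_sum s (fun x => iH H (g * x))]
  unfold iH
  have e3 : g * s ∈ H ↔ g ∈ H := Subgroup.mul_mem_cancel_right H hs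
  have e4 : g * (c * s) ∈ H ↔ c * g ∈ H := by
    rw [← mul_assoc, ← hc g, mul_assoc, hH, hH, e3]
  simp only [e3, e4]

include hc hc2 in
lemma sum_dd (g s t : G) :
    ∑ x : G, dl c s x * dl c t (g * x) = 2 * dl c (t * s⁻¹) g := by
  rw [dl_sum s (fun x => dl c t (g * x))]
  have e1 : (g * s = t) ↔ (g = t * s⁻¹) := by rw [eq_mul_inv_iff_mul_eq]
  have e2 : (g * s = c * t) ↔ (g = c * (t * s⁻¹)) := by
    rw [← mul_assoc, eq_mul_inv_iff_mul_eq]
  have e3 : (g * (c * s) = t) ↔ (g = c * (t * s⁻¹)) := by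
    rw [← e2, ← mul_assoc, ← hc g, mul_assoc]
    constructor
    · intro h; rw [← h, cc hc2]
    · intro h; rw [h, cc hc2]
  have e4 : (g * (c * s) = c * t) ↔ (g = t * s⁻¹) := by
    rw [← e1, ← mul_assoc, ← hc g, mul_assoc]
    exact mul_right_inj c
  unfold dl
  simp only [e1, e2, e3, e4]
  ring

include hc hc2 hH in
lemma R_flip {S : Finset G} (hS : ∀ s ∈ S, s ∈ H) (g : G) :
    R (X := G) (flip c H S) g = nH H * iH H g - 2 * S.card * (iH H g - iH H (c * g)) +
      2 * ∑ s ∈ S, ∑ t ∈ S, dl c (t * s⁻¹) g := by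
  rw [R_sum]
  have h1 : ∀ x : G, (if x ∈ flip c H S then (1 : ℚ) else 0) *
      (if g * x ∈ flip c H S then (1 : ℚ) else 0) =
      iH H x * iH H (g * x) - ∑ t ∈ S, iH H x * dl c t (g * x) -
      ∑ s ∈ S, dl c s x * iH H (g * x) + ∑ s ∈ S, ∑ t ∈ S, dl c s x * dl c t (g * x) := by
    intro x
    rw [ind_flip' hc2 hH hS, ind_flip' hc2 hH hS, sub_mul, mul_sub, mul_sub, Finset.mul_sum,
      Finset.sum_mul, Finset.sum_mul_sum]
    ring
  rw [Finset.sum_congr rfl (fun x _ => h1 x), Finset.sum_add_distrib, Finset.sum_sub_distrib,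
    Finset.sum_sub_distrib, sum_HH]
  have h2 : ∑ x : G, ∑ t ∈ S, iH H x * dl c t (g * x) = S.card * (iH H g - iH H (c * g)) := by
    rw [Finset.sum_comm, Finset.sum_congr rfl (fun t ht => sum_Hd hc hc2 hH g t (hS t ht)),
      Finset.sum_const, nsmul_eq_mul]
  have h3 : ∑ x : G, ∑ s ∈ S, dl c s x * iH H (g * x) = S.card * (iH H g - iH H (c * g)) := by
    rw [Finset.sum_comm, Finset.sum_congr rfl (fun t ht => sum_dH hc hc2 hH g t (hS t ht)),
      Finset.sum_const, nsmul_eq_mul]
  have h4 : ∑ x : G, ∑ s ∈ S, ∑ t ∈ S, dl c s x * dl c t (g * x) =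
      2 * ∑ s ∈ S, ∑ t ∈ S, dl c (t * s⁻¹) g := by
    rw [Finset.sum_comm, Finset.mul_sum]
    refine Finset.sum_congr rfl (fun s _ => ?_)
    rw [Finset.sum_comm, Finset.mul_sum]
    exact Finset.sum_congr rfl (fun t _ => sum_dd hc hc2 g s t)
  rw [h2, h3, h4]
  ring

include hc hc2 hH in
/-- Every class function `f` with `f(g) + f(c g)` constant and `f(g⁻¹) = f(g)` is a combination of
`1` and of the functions `T` of the half-systems of `G` with at most two elements outside `H`. -/
theorem mem_span_two (f : G → ℚ) (hf : IsClass f) (hinv : ∀ g, f g⁻¹ = f g) (s : ℚ)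
    (hs : ∀ g, f g + f (c * g) = s) :
    f ∈ Submodule.span ℚ ({fun _ => 1} ∪
      {F : G → ℚ | ∃ Φ : Finset G, Near c H 2 Φ ∧ F = T (X := G) Φ}) := by
  set W := Submodule.span ℚ ({fun _ => 1} ∪
      {F : G → ℚ | ∃ Φ : Finset G, Near c H 2 Φ ∧ F = T (X := G) Φ}) with hW
  have hone : (fun _ => 1 : G → ℚ) ∈ W := Submodule.subset_span (Or.inl rfl)
  have hnear : ∀ Φ : Finset G, Near c H 2 Φ → cav (R (X := G) Φ) ∈ W := fun Φ h => by
    rw [← T_eq_cav]
    exact Submodule.subset_span (Or.inr ⟨Φ, h, rfl⟩)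
  have hn0 : nH H ≠ 0 := by
    unfold nH iH
    rw [Finset.sum_boole]
    have : 0 < (Finset.univ.filter fun x : G => x ∈ H).card :=
      Finset.card_pos.mpr ⟨1, by simp [one_mem]⟩
    exact_mod_cast this.ne'
  have hcH : ∀ g : G, iH H (c * g) = 1 - iH H g := by
    intro g
    unfold iH
    by_cases h : g ∈ H
    · have : c * g ∉ H := by rw [hH]; exact fun h' => h' h
      simp [h, this]
    · have : c * g ∈ H := by rw [hH]; exact h
      simp [h, this]
  -- the function of `H`
  have hR0 : R (X := G) (flip c H ∅) = nH H • (iH H : G → ℚ) := by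
    funext g
    rw [R_flip hc hc2 hH (by simp)]
    simp
  have hR1 : R (X := G) (flip c H {1}) = (nH H - 4) • (iH H : G → ℚ) + (2 : ℚ) • (fun _ => 1) +
      (2 : ℚ) • dl c 1 := by
    funext g
    rw [R_flip hc hc2 hH (by simp [one_mem])]
    simp only [Finset.card_singleton, Finset.sum_singleton, Pi.add_apply, Pi.smul_apply,
      smul_eq_mul, inv_one, mul_one, hcH]
    push_cast
    ring
  have h0 : cav (iH H : G → ℚ) ∈ W := by
    have := hnear _ ((near_flip hc2 hH (∅ : Finset G)).mono (by simp))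
    rw [hR0, ← cavL_apply, map_smul] at this
    have h2 := W.smul_mem (nH H)⁻¹ this
    rwa [smul_smul, inv_mul_cancel₀ hn0, one_smul] at h2
  have hc1 : cav (fun _ => 1 : G → ℚ) = fun _ => 1 := cav_of_isClass (fun _ _ => rfl)
  have h1 : cav (dl c (1 : G)) ∈ W := by
    have := hnear _ ((near_flip hc2 hH ({1} : Finset G)).mono (by simp))
    rw [hR1, ← cavL_apply, map_add, map_add, map_smul, map_smul, map_smul, cavL_apply,
      cavL_apply, cavL_apply, hc1] at this
    have h2 := W.sub_mem this (W.add_mem (W.smul_mem (nH H - 4) h0) (W.smul_mem 2 hone))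
    rw [add_sub_cancel_left] at h2
    have h3 := W.smul_mem (2 : ℚ)⁻¹ h2
    rwa [smul_smul, inv_mul_cancel₀ two_ne_zero, one_smul] at h3
  have hdl : ∀ x ∈ H, cav (dl c x) + cav (dl c x⁻¹) ∈ W := by
    intro x hx
    by_cases hx1 : x = 1
    · subst hx1
      rw [inv_one]
      exact W.add_mem h1 h1
    · have hR2 : R (X := G) (flip c H {1, x}) - (2 : ℚ) • R (X := G) (flip c H {1}) +
          R (X := G) (flip c H ∅) = (2 : ℚ) • (dl c x + dl c x⁻¹) := by
        funext g
        have hS : ∀ s ∈ ({1, x} : Finset G), s ∈ H := by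
          intro s hs
          rcases Finset.mem_insert.mp hs with rfl | h
          · exact one_mem H
          · rw [Finset.mem_singleton.mp h]; exact hx
        simp only [Pi.add_apply, Pi.sub_apply, Pi.smul_apply, smul_eq_mul]
        rw [R_flip hc hc2 hH hS, R_flip hc hc2 hH (by simp [one_mem]),
          R_flip hc hc2 hH (by simp)]
        have hne : (1 : G) ∉ ({x} : Finset G) := by
          simpa using fun h : (1 : G) = x => hx1 h.symm
        rw [Finset.sum_insert hne, Finset.sum_insert hne, Finset.sum_singleton,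
          Finset.sum_singleton, Finset.sum_insert hne, Finset.sum_singleton,
          Finset.card_insert_of_notMem hne, Finset.card_singleton]
        simp only [inv_one, mul_one, one_mul, mul_inv_cancel, Finset.sum_empty, Finset.card_empty,
          Finset.sum_singleton, Finset.card_singleton]
        push_cast
        ring
      have h2 : cav (R (X := G) (flip c H {1, x})) - (2 : ℚ) • cav (R (X := G) (flip c H {1})) +
          cav (R (X := G) (flip c H ∅)) = (2 : ℚ) • (cav (dl c x) + cav (dl c x⁻¹)) := by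
        have := congrArg cavL hR2
        simpa only [map_add, map_sub, map_smul, cavL_apply] using this
      have h3 : (2 : ℚ) • (cav (dl c x) + cav (dl c x⁻¹)) ∈ W := by
        rw [← h2]
        refine W.add_mem (W.sub_mem (hnear _ ((near_flip hc2 hH _).mono ?_)) (W.smul_mem _
          (hnear _ ((near_flip hc2 hH _).mono ?_)))) (hnear _ ((near_flip hc2 hH _).mono ?_))
        · exact (Finset.card_insert_le _ _).trans (by simp)
        · simp
        · simp
      have h4 := W.smul_mem (2 : ℚ)⁻¹ h3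
      rwa [smul_smul, inv_mul_cancel₀ two_ne_zero, one_smul] at h4
  set u : G → ℚ := f - (s / 2) • (fun _ => 1) with hu
  have hodd : ∀ g, u (c * g) = - u g := by
    intro g
    simp only [hu, Pi.sub_apply, Pi.smul_apply, smul_eq_mul, mul_one]
    linarith [hs g]
  have hcls : IsClass u := by
    intro g h
    simp only [hu, Pi.sub_apply, Pi.smul_apply, smul_eq_mul, mul_one, hf g h]
  have hui : ∀ g, u g⁻¹ = u g := by
    intro g
    simp only [hu, Pi.sub_apply, Pi.smul_apply, smul_eq_mul, mul_one, hinv g]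
  have h5 : u = ∑ x ∈ Finset.univ.filter (fun x : G => x ∈ H), u x • cav (dl c x) := by
    conv_lhs => rw [← cav_of_isClass hcls, ← cavL_apply, odd_decomp hc2 hH u hodd]
    rw [map_sum]
    refine Finset.sum_congr rfl (fun x _ => ?_)
    rw [map_smul, cavL_apply]
  have h6 : u = ∑ x ∈ Finset.univ.filter (fun x : G => x ∈ H), u x • cav (dl c x⁻¹) := by
    conv_lhs => rw [h5]
    refine Finset.sum_bij' (fun x _ => x⁻¹) (fun x _ => x⁻¹) ?_ ?_ ?_ ?_ ?_
    · intro x hx; simpa using hx
    · intro x hx; simpa using hx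
    · intro x _; simp
    · intro x _; simp
    · intro x _; rw [inv_inv, hui]
  have h7 : (2 : ℚ) • u ∈ W := by
    have : (2 : ℚ) • u = ∑ x ∈ Finset.univ.filter (fun x : G => x ∈ H),
        u x • (cav (dl c x) + cav (dl c x⁻¹)) := by
      rw [two_smul]
      conv_lhs => enter [1]; rw [h5]
      conv_lhs => enter [2]; rw [h6]
      rw [← Finset.sum_add_distrib]
      exact Finset.sum_congr rfl (fun x _ => (smul_add _ _ _).symm)
    rw [this]
    refine W.sum_mem (fun x hx => W.smul_mem _ (hdl x ?_))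
    simpa using hx
  have h8 : u ∈ W := by
    have := W.smul_mem (2 : ℚ)⁻¹ h7
    rwa [smul_smul, inv_mul_cancel₀ two_ne_zero, one_smul] at this
  have h9 : f = u + (s / 2) • (fun _ => 1) := by rw [hu]; simp
  rw [h9]
  exact W.add_mem h8 (W.smul_mem _ hone)

end

end Pool.Agent.Q11.CZ
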