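import Pool.Agent.Q11.CZ.Avg
import Pool.Agent.Q11.CZ.Red2

/-!
# Functions which only depend on the cyclic group generated by an element
-/

set_option autoImplicit false

open scoped Classical

namespace Pool.Agent.Q11.CZ

variable {G : Type*} [Group G] [Fintype G] {c : G}

/-- `f(g) = f(g')` if `g` and `g'` generate the same cyclic group. -/
def ZInv (f : G → ℚ) : Prop := ∀ g g' : G, Subgroup.zpowers g = Subgroup.zpowers g' → f g = f g'

/-- indicator of the generators of `C`. -/
noncomputable def gen (C : Subgroup G) (g : G) : ℚ := if Subgroup.zpowers g = C then 1 else 0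

lemma gen_mem (n : ℕ) : ∀ g₀ : G, Nat.card (Subgroup.zpowers g₀) = n →
    gen (Subgroup.zpowers g₀) ∈ Submodule.span ℚ (Set.range (iH : Subgroup G → G → ℚ)) := by
  induction n using Nat.strong_induction_on with
  | _ n ih =>
    intro g₀ hg₀
    set C := Subgroup.zpowers g₀ with hC
    set I : Finset (Subgroup G) := (Finset.univ.filter fun g : G => g ∈ C).image
      (fun g => Subgroup.zpowers g) with hI
    have h1 : iH C = ∑ D ∈ I, gen D := by
      funext g
      rw [Finset.sum_apply]
      unfold gen
      rw [Finset.sum_ite_eq]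
      unfold iH
      have : g ∈ C ↔ Subgroup.zpowers g ∈ I := by
        rw [hI, Finset.mem_image]
        constructor
        · intro h
          exact ⟨g, by simpa using h, rfl⟩
        · rintro ⟨x, hx, hxg⟩
          have h2 : Subgroup.zpowers x ≤ C := by
            rw [Subgroup.zpowers_le]; simpa using hx
          rw [hxg] at h2
          exact h2 (Subgroup.mem_zpowers g)
      simp only [this]
    have hCI : C ∈ I := by
      rw [hI, Finset.mem_image]
      exact ⟨g₀, by simp [hC, Subgroup.mem_zpowers], rfl⟩
    have h2 : gen C = iH C - ∑ D ∈ I.erase C, gen D := by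
      rw [h1, ← Finset.add_sum_erase I _ hCI, add_sub_cancel_right]
    rw [h2]
    refine Submodule.sub_mem _ (Submodule.subset_span ⟨C, rfl⟩) (Submodule.sum_mem _ ?_)
    intro D hD
    rw [Finset.mem_erase, hI, Finset.mem_image] at hD
    obtain ⟨hne, x, hx, rfl⟩ := hD
    have hle : Subgroup.zpowers x ≤ C := by
      rw [Subgroup.zpowers_le]; simpa using hx
    have hlt : Nat.card (Subgroup.zpowers x) < n := by
      rw [← hg₀]
      refine lt_of_le_of_ne (Subgroup.card_le_of_le hle) (fun h => hne ?_)
      exact Subgroup.eq_of_le_of_card_ge hle h.ge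
    exact ih _ hlt x rfl

/-- Every function which only depends on the cyclic group generated by the element is a
combination of indicator functions of subgroups. -/
lemma zinv_mem {f : G → ℚ} (hf : ZInv f) :
    f ∈ Submodule.span ℚ (Set.range (iH : Subgroup G → G → ℚ)) := by
  have h1 : f = ∑ g₀ : G,
      (f g₀ / ((Finset.univ.filter fun x : G => Subgroup.zpowers x = Subgroup.zpowers g₀).card : ℚ)) •
        gen (Subgroup.zpowers g₀) := by
    funext g
    rw [Finset.sum_apply]
    simp only [Pi.smul_apply, smul_eq_mul, gen, mul_ite, mul_one, mul_zero]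
    rw [← Finset.sum_filter]
    have h2 : ∀ x ∈ Finset.univ.filter (fun x : G => Subgroup.zpowers g = Subgroup.zpowers x),
        f x / ((Finset.univ.filter fun y : G =>
          Subgroup.zpowers y = Subgroup.zpowers x).card : ℚ) =
        f g / ((Finset.univ.filter fun y : G =>
          Subgroup.zpowers g = Subgroup.zpowers y).card : ℚ) := by
      intro x hx
      simp only [Finset.mem_filter, Finset.mem_univ, true_and] at hx
      rw [hf g x hx, ← hx]
      simp only [eq_comm]
    rw [Finset.sum_congr rfl h2, Finset.sum_const, nsmul_eq_mul, mul_div_cancel₀]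
    have : 0 < (Finset.univ.filter fun y : G =>
        Subgroup.zpowers g = Subgroup.zpowers y).card :=
      Finset.card_pos.mpr ⟨g, by simp⟩
    exact_mod_cast this.ne'
  rw [h1]
  exact Submodule.sum_mem _ (fun g₀ _ => Submodule.smul_mem _ _ (gen_mem _ g₀ rfl))

/-- number of conjugates in `U` -/
noncomputable def ps (U : Subgroup G) (g : G) : ℚ :=
  ((Finset.univ.filter fun x : G => x⁻¹ * g * x ∈ U).card : ℚ)

lemma cav_iH (U : Subgroup G) : cav (iH U) = fun g => ps U g / Fintype.card G := by
  funext g
  unfold cav iH ps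
  rw [Finset.sum_boole]

/-- translation by `c` as a linear map -/
noncomputable def shiftL (c : G) : (G → ℚ) →ₗ[ℚ] (G → ℚ) where
  toFun f g := f (c * g)
  map_add' _ _ := rfl
  map_smul' _ _ := rfl

/-- A submodule which contains `1` and the functions `ps U g - ps U (c g)` contains all class
functions `f` with `f(g) + f(c g)` constant which only depend on the group generated by `g`. -/
theorem mem_of_zinv (V : Submodule ℚ (G → ℚ)) (h1 : (fun _ => 1 : G → ℚ) ∈ V)
    (hU : ∀ U : Subgroup G, (fun g => ps U g - ps U (c * g)) ∈ V)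
    {f : G → ℚ} (hf : IsClass f) {s : ℚ} (hs : ∀ g, f g + f (c * g) = s) (hz : ZInv f) :
    f ∈ V := by
  set u : G → ℚ := f - (s / 2) • (fun _ => 1) with hu
  have hodd : ∀ g, u (c * g) = - u g := by
    intro g
    simp only [hu, Pi.sub_apply, Pi.smul_apply, smul_eq_mul, mul_one]
    linarith [hs g]
  have hcls : IsClass u := by
    intro g h
    simp only [hu, Pi.sub_apply, Pi.smul_apply, smul_eq_mul, mul_one, hf g h]
  have hzu : ZInv u := by
    intro g g' h
    simp only [hu, Pi.sub_apply, Pi.smul_apply, smul_eq_mul, mul_one, hz g g' h]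
  set L : (G → ℚ) →ₗ[ℚ] (G → ℚ) := cavL - (shiftL c).comp cavL with hL
  have h2 : L u = (2 : ℚ) • u := by
    funext g
    simp only [hL, LinearMap.sub_apply, LinearMap.comp_apply, cavL_apply, cav_of_isClass hcls,
      Pi.sub_apply, Pi.smul_apply, smul_eq_mul]
    change u g - u (c * g) = _
    rw [hodd]; ring
  have h3 : L u ∈ V := by
    have h4 := zinv_mem hzu
    have h5 : Submodule.span ℚ (Set.range (iH : Subgroup G → G → ℚ)) ≤ V.comap L := by
      rw [Submodule.span_le]
      rintro _ ⟨U, rfl⟩
      change L (iH U) ∈ V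
      have h6 : L (iH U) = (Fintype.card G : ℚ)⁻¹ • (fun g => ps U g - ps U (c * g)) := by
        funext g
        simp only [hL, LinearMap.sub_apply, LinearMap.comp_apply, cavL_apply, cav_iH,
          Pi.sub_apply, Pi.smul_apply, smul_eq_mul]
        change ps U g / _ - ps U (c * g) / _ = _
        ring
      rw [h6]
      exact V.smul_mem _ (hU U)
    exact h5 h4
  have h7 : u ∈ V := by
    rw [h2] at h3
    have := V.smul_mem (2 : ℚ)⁻¹ h3
    rwa [smul_smul, inv_mul_cancel₀ two_ne_zero, one_smul] at this
  have h8 : f = u + (s / 2) • (fun _ => 1) := by rw [hu]; simp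
  rw [h8]
  exact V.add_mem h7 (V.smul_mem _ h1)

section
variable {X : Type*} [Fintype X] [MulAction G X]

/-- fixed points in a transitive set -/
lemma ps_stab [MulAction.IsPretransitive G X] (x₀ : X) (g : G) :
    ps (MulAction.stabilizer G x₀) g =
      (Finset.univ.filter fun x : G => x • x₀ = x₀).card * fix X g := by
  unfold fix
  have h1 : ps (MulAction.stabilizer G x₀) g =
      (((Finset.univ.filter fun y : X => g • y = y).biUnion
        (fun y => Finset.univ.filter fun x : G => x • x₀ = y)).card : ℚ) := by
    unfold ps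
    refine congrArg _ (congrArg _ ?_)
    ext x
    simp only [Finset.mem_filter, Finset.mem_univ, true_and, Finset.mem_biUnion,
      MulAction.mem_stabilizer_iff]
    constructor
    · intro h
      refine ⟨x • x₀, ?_, rfl⟩
      have := congrArg (fun y => x • y) h
      simpa [mul_smul] using this
    · rintro ⟨y, hy, rfl⟩
      simp [mul_smul, hy]
  rw [h1, Finset.card_biUnion]
  · push_cast
    have h2 : ∀ y ∈ (Finset.univ.filter fun y : X => g • y = y),
        (((Finset.univ.filter fun x : G => x • x₀ = y).card : ℕ) : ℚ) =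
          ((Finset.univ.filter fun x : G => x • x₀ = x₀).card : ℕ) := by
      intro y _
      obtain ⟨z, rfl⟩ := MulAction.exists_smul_eq G x₀ y
      congr 1
      refine Finset.card_bij' (fun x _ => z⁻¹ * x) (fun x _ => z * x) ?_ ?_ ?_ ?_
      · intro x hx
        simp only [Finset.mem_filter, Finset.mem_univ, true_and] at hx ⊢
        simp [mul_smul, hx]
      · intro x hx
        simp only [Finset.mem_filter, Finset.mem_univ, true_and] at hx ⊢
        simp [mul_smul, hx]
      · intro x _; simp
      · intro x _; simp
    rw [Finset.sum_congr rfl h2, Finset.sum_const, nsmul_eq_mul, mul_comm]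
  · intro y _ y' _ hyy'
    rw [Function.onFun, Finset.disjoint_left]
    intro x hx hx'
    simp only [Finset.mem_filter, Finset.mem_univ, true_and] at hx hx'
    exact hyy' (hx.symm.trans hx')

omit [Fintype G] in
/-- existence of half-systems -/
lemma exists_half (hc2 : c * c = 1) (hfree : ∀ x : X, c • x ≠ x) :
    (halves c X).Nonempty := by
  refine ⟨Finset.univ.filter fun x : X =>
    Fintype.equivFin X x < Fintype.equivFin X (c • x), ?_⟩
  rw [mem_halves]
  intro x
  simp only [Finset.mem_filter, Finset.mem_univ, true_and]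
  rw [smul_smul_c hc2, not_lt]
  constructor
  · exact fun h => h.le
  · intro h
    refine lt_of_le_of_ne h (fun h' => hfree x ?_)
    exact (Fintype.equivFin X).injective h'

omit [Fintype G] in
lemma fix_eq_of_zpowers {g g' : G} (h : Subgroup.zpowers g = Subgroup.zpowers g') :
    fix X g = fix X g' := by
  have key : ∀ {a b : G}, Subgroup.zpowers a = Subgroup.zpowers b →
      ∀ x : X, a • x = x → b • x = x := by
    intro a b hab x hx
    have h1 : a ∈ MulAction.stabilizer G x := hx
    have h2 : Subgroup.zpowers a ≤ MulAction.stabilizer G x := by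
      rw [Subgroup.zpowers_le]; exact h1
    rw [hab] at h2
    exact h2 (Subgroup.mem_zpowers b)
  unfold fix
  congr 2
  ext x
  simp only [Finset.mem_filter, Finset.mem_univ, true_and]
  exact ⟨key h x, key h.symm x⟩

/-- if `g`, `g'` generate the same group then so do `c g`, `c g'`. -/
lemma zpowers_c (hc : ∀ g, c * g = g * c) (hc2 : c * c = 1) {g g' : G}
    (h : Subgroup.zpowers g = Subgroup.zpowers g') :
    Subgroup.zpowers (c * g) = Subgroup.zpowers (c * g') := by
  have key : ∀ {a b : G}, Subgroup.zpowers a = Subgroup.zpowers b → c * b ∈ Subgroup.zpowers (c * a) := by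
    intro a b hab
    have hb : b ∈ Subgroup.zpowers a := hab ▸ Subgroup.mem_zpowers b
    have ha : a ∈ Subgroup.zpowers b := hab ▸ Subgroup.mem_zpowers a
    obtain ⟨i, hi⟩ := Subgroup.mem_zpowers_iff.mp hb
    obtain ⟨j, hj⟩ := Subgroup.mem_zpowers_iff.mp ha
    -- there is an odd exponent
    obtain ⟨m, hm, hodd⟩ : ∃ m : ℤ, a ^ m = b ∧ Odd m := by
      rcases Int.even_or_odd i with he | ho
      · refine ⟨i + (i * j - 1), ?_, ?_⟩
        · have e1 : a ^ (i * j) = a := by rw [zpow_mul, hi, hj]
          rw [zpow_add, zpow_sub, zpow_one, e1, mul_inv_cancel, mul_one, hi]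
        · obtain ⟨t, rfl⟩ := he
          exact ⟨t + t * j - 1, by ring⟩
      · exact ⟨i, hi, ho⟩
    have hcm : c ^ m = c := by
      obtain ⟨t, rfl⟩ := hodd
      rw [zpow_add, zpow_mul, zpow_one]
      have : c ^ (2 : ℤ) = 1 := by rw [zpow_ofNat, pow_two, hc2]
      rw [this, one_zpow, one_mul]
    rw [Subgroup.mem_zpowers_iff]
    refine ⟨m, ?_⟩
    rw [(show Commute c a from hc a).mul_zpow, hcm, hm]
  apply le_antisymm
  · rw [Subgroup.zpowers_le]; exact key h.symm
  · rw [Subgroup.zpowers_le]; exact key h

end

end Pool.Agent.Q11.CZ
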