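import Pool.Agent.Q11.CZ.Grp

/-!
# Averages over all half-systems
-/

set_option autoImplicit false

open scoped Classical

namespace Pool.Agent.Q11.CZ

variable {G : Type*} [Group G] [Fintype G] {c : G}
variable {X : Type*} [Fintype X] [MulAction G X]

/-- the set of all half-systems -/
noncomputable def halves (c : G) (X : Type*) [Fintype X] [MulAction G X] : Finset (Finset X) :=
  Finset.univ.filter fun Φ => IsHalf c Φ

/-- number of fixed points -/
noncomputable def fix (X : Type*) [Fintype X] [MulAction G X] (g : G) : ℚ :=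
  ((Finset.univ.filter fun x : X => g • x = x).card : ℚ)

section
variable (hc : ∀ g, c * g = g * c) (hc2 : c * c = 1)

omit [Fintype G] in
lemma mem_halves (Φ : Finset X) : Φ ∈ halves c X ↔ IsHalf c Φ := by simp [halves]

omit [Fintype G] in
include hc2 in
lemma smul_smul_c (x : X) : c • (c • x) = x := by rw [← mul_smul, hc2, one_smul]

omit [Fintype G] in
include hc2 in
/-- toggling the pair `x`, `c x`. -/
lemma isHalf_toggle {Φ : Finset X} (hΦ : IsHalf c Φ) (x : X) :
    IsHalf c (symmDiff Φ {x, c • x}) := by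
  intro y
  have h1 : c • y ∈ ({x, c • x} : Finset X) ↔ y ∈ ({x, c • x} : Finset X) := by
    simp only [Finset.mem_insert, Finset.mem_singleton]
    constructor
    · rintro (h | h)
      · right; rw [← h, smul_smul_c hc2]
      · left; exact (MulAction.injective c) h
    · rintro (h | h)
      · right; rw [h]
      · left; rw [h, smul_smul_c hc2]
  rw [Finset.mem_symmDiff, Finset.mem_symmDiff, h1, hΦ]
  tauto

omit [Fintype G] in
include hc2 in
/-- half of the half-systems contain a given point. -/
lemma sum_halves_one (x : X) :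
    2 * ∑ Φ ∈ halves c X, (if x ∈ Φ then (1 : ℚ) else 0) = (halves c X).card := by
  have h1 : ∑ Φ ∈ halves c X, (if x ∈ Φ then (1 : ℚ) else 0) =
      ∑ Φ ∈ halves c X, (if x ∈ Φ then (0 : ℚ) else 1) := by
    refine Finset.sum_bij' (fun Φ _ => symmDiff Φ {x, c • x})
      (fun Φ _ => symmDiff Φ {x, c • x}) ?_ ?_ ?_ ?_ ?_
    · intro Φ hΦ
      rw [mem_halves] at hΦ ⊢
      exact isHalf_toggle hc2 hΦ x
    · intro Φ hΦ
      rw [mem_halves] at hΦ ⊢
      exact isHalf_toggle hc2 hΦ x
    · intro Φ _; exact symmDiff_symmDiff_cancel_right _ _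
    · intro Φ _; exact symmDiff_symmDiff_cancel_right _ _
    · intro Φ _
      have : x ∈ symmDiff Φ {x, c • x} ↔ x ∉ Φ := by
        rw [Finset.mem_symmDiff]; simp
      by_cases h : x ∈ Φ
      · simp [this, h]
      · simp [this, h]
  rw [two_mul]
  conv_lhs => enter [2]; rw [h1]
  rw [← Finset.sum_add_distrib]
  have h2 : ∀ Φ ∈ halves c X, ((if x ∈ Φ then (1 : ℚ) else 0) + (if x ∈ Φ then (0 : ℚ) else 1)) = 1 := by
    intro Φ _
    by_cases h : x ∈ Φ <;> simp [h]
  rw [Finset.sum_congr rfl h2]
  simp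

omit [Fintype G] in
include hc2 in
/-- a quarter of the half-systems contain two independent points. -/
lemma sum_halves_two (x y : X) (h1 : y ≠ x) (h2 : y ≠ c • x) :
    2 * ∑ Φ ∈ halves c X, (if x ∈ Φ then (1 : ℚ) else 0) * (if y ∈ Φ then (1 : ℚ) else 0) =
      ∑ Φ ∈ halves c X, (if x ∈ Φ then (1 : ℚ) else 0) := by
  have h3 : ∑ Φ ∈ halves c X, (if x ∈ Φ then (1 : ℚ) else 0) * (if y ∈ Φ then (1 : ℚ) else 0) =
      ∑ Φ ∈ halves c X, (if x ∈ Φ then (1 : ℚ) else 0) * (if y ∈ Φ then (0 : ℚ) else 1) := by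
    refine Finset.sum_bij' (fun Φ _ => symmDiff Φ {y, c • y})
      (fun Φ _ => symmDiff Φ {y, c • y}) ?_ ?_ ?_ ?_ ?_
    · intro Φ hΦ
      rw [mem_halves] at hΦ ⊢
      exact isHalf_toggle hc2 hΦ y
    · intro Φ hΦ
      rw [mem_halves] at hΦ ⊢
      exact isHalf_toggle hc2 hΦ y
    · intro Φ _; exact symmDiff_symmDiff_cancel_right _ _
    · intro Φ _; exact symmDiff_symmDiff_cancel_right _ _
    · intro Φ _
      have h4 : y ∈ symmDiff Φ {y, c • y} ↔ y ∉ Φ := by
        rw [Finset.mem_symmDiff]; simp
      have h5 : x ∈ symmDiff Φ {y, c • y} ↔ x ∈ Φ := by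
        rw [Finset.mem_symmDiff]
        have : x ∉ ({y, c • y} : Finset X) := by
          simp only [Finset.mem_insert, Finset.mem_singleton, not_or]
          refine ⟨fun h => h1 h.symm, fun h => h2 ?_⟩
          rw [h, smul_smul_c hc2]
        simp [this]
      by_cases h : y ∈ Φ
      · simp [h4, h5, h]
      · simp [h4, h5, h]
  rw [two_mul]
  conv_lhs => enter [2]; rw [h3]
  rw [← Finset.sum_add_distrib]
  refine Finset.sum_congr rfl (fun Φ _ => ?_)
  by_cases h : y ∈ Φ <;> simp [h]

omit [Fintype G] in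
include hc2 in
/-- the sum of `R Φ` over all half-systems. -/
lemma sum_R (g : G) :
    4 * ∑ Φ ∈ halves c X, R Φ g =
      (halves c X).card * (Fintype.card X + fix X g - fix X (c * g)) := by
  by_cases hne : (halves c X).Nonempty
  swap
  · rw [Finset.not_nonempty_iff_eq_empty] at hne
    rw [hne]; simp
  obtain ⟨Φ₀, hΦ₀⟩ := hne
  rw [mem_halves] at hΦ₀
  have hfree : ∀ x : X, c • x ≠ x := by
    intro x hx
    have := hΦ₀ x
    rw [hx] at this
    tauto
  have h1 : ∀ Φ : Finset X, R Φ g =
      ∑ x : X, (if x ∈ Φ then (1 : ℚ) else 0) * (if g • x ∈ Φ then (1 : ℚ) else 0) := by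
    intro Φ
    unfold R
    rw [Finset.card_filter]
    push_cast
    rw [← Finset.sum_subset (Finset.subset_univ Φ)]
    · refine Finset.sum_congr rfl (fun x hx => ?_)
      rw [if_pos hx, one_mul]
    · intro x _ hx
      rw [if_neg hx, zero_mul]
  simp only [h1]
  rw [Finset.sum_comm, Finset.mul_sum]
  have h2 : ∀ x : X, 4 * ∑ Φ ∈ halves c X, (if x ∈ Φ then (1 : ℚ) else 0) *
      (if g • x ∈ Φ then (1 : ℚ) else 0) = (halves c X).card *
      (1 + (if g • x = x then 1 else 0) - (if (c * g) • x = x then 1 else 0)) := by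
    intro x
    have e1 := sum_halves_one (X := X) hc2 x
    by_cases h3 : g • x = x
    · have h4 : (c * g) • x ≠ x := by
        rw [mul_smul, h3]; exact hfree x
      have h5 : ∀ Φ ∈ halves c X, (if x ∈ Φ then (1 : ℚ) else 0) *
          (if g • x ∈ Φ then (1 : ℚ) else 0) = (if x ∈ Φ then (1 : ℚ) else 0) := by
        intro Φ _
        rw [h3]
        by_cases h : x ∈ Φ <;> simp [h]
      rw [Finset.sum_congr rfl h5, if_pos h3, if_neg h4]
      linarith
    · by_cases h4 : (c * g) • x = x
      · have h5 : g • x = c • x := by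
          calc g • x = c • (c • (g • x)) := (smul_smul_c hc2 _).symm
            _ = c • x := by rw [← mul_smul c g x, h4]
        have h6 : ∀ Φ ∈ halves c X, (if x ∈ Φ then (1 : ℚ) else 0) *
            (if g • x ∈ Φ then (1 : ℚ) else 0) = 0 := by
          intro Φ hΦ
          rw [mem_halves] at hΦ
          rw [h5]
          have := hΦ x
          by_cases h : x ∈ Φ
          · have : c • x ∉ Φ := by tauto
            simp [this]
          · simp [h]
        rw [Finset.sum_congr rfl h6, if_neg h3, if_pos h4]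
        simp
      · have h5 : g • x ≠ c • x := by
          intro h
          apply h4
          rw [mul_smul, h, smul_smul_c hc2]
        have e2 := sum_halves_two (X := X) hc2 x (g • x) h3 h5
        rw [if_neg h3, if_neg h4]
        linarith
  rw [Finset.sum_congr rfl (fun x _ => h2 x), ← Finset.mul_sum, Finset.sum_sub_distrib,
    Finset.sum_add_distrib, Finset.sum_boole, Finset.sum_boole]
  simp only [Finset.sum_const, Finset.card_univ, nsmul_eq_mul, mul_one, fix]

omit [Fintype G] in
/-- the fixed points are a class function -/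
lemma fix_isClass : IsClass (fix X : G → ℚ) := by
  intro g h
  unfold fix
  congr 1
  refine Finset.card_bij' (fun x _ => h • x) (fun x _ => h⁻¹ • x) ?_ ?_ ?_ ?_
  · intro x hx
    simp only [Finset.mem_filter, Finset.mem_univ, true_and] at hx ⊢
    have := congrArg (fun y => h • y) hx
    simpa [mul_smul] using this
  · intro x hx
    simp only [Finset.mem_filter, Finset.mem_univ, true_and] at hx ⊢
    simp [mul_smul, hx]
  · intro x _; simp
  · intro x _; simp

include hc hc2 in
/-- the sum of the functions `T` over all half-systems. -/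
lemma sum_T :
    (∑ Φ ∈ halves c X, T Φ : G → ℚ) =
      fun g => ((halves c X).card : ℚ) / 4 * (Fintype.card X + fix X g - fix X (c * g)) := by
  have h1 : (∑ Φ ∈ halves c X, T Φ : G → ℚ) = cav (∑ Φ ∈ halves c X, R Φ) := by
    rw [← cavL_apply, map_sum]
    exact Finset.sum_congr rfl (fun Φ _ => T_eq_cav Φ)
  have h2 : (∑ Φ ∈ halves c X, R Φ : G → ℚ) =
      fun g => ((halves c X).card : ℚ) / 4 * (Fintype.card X + fix X g - fix X (c * g)) := by
    funext g
    rw [Finset.sum_apply]
    have := sum_R (X := X) hc2 g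
    linarith
  rw [h1, h2]
  apply cav_of_isClass
  intro g h
  have e1 : c * (h⁻¹ * g * h) = h⁻¹ * (c * g) * h := by
    rw [← mul_assoc h⁻¹ c g, ← hc h⁻¹]
    simp only [mul_assoc]
  simp only [e1, fix_isClass g h, fix_isClass (c * g) h]

end

end Pool.Agent.Q11.CZ
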