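import Pool.Agent.Q11.CZ.Main

/-!
# Conditions on the conjugacy classes
-/

set_option autoImplicit false

open scoped Classical commutatorElement

namespace Pool.Agent.Q11.CZ

variable {G : Type} [Group G] [Fintype G] {c : G}

omit [Fintype G] in
lemma isClass_conj {f : G → ℚ} (hf : IsClass f) {a b : G} (h : IsConj a b) : f a = f b := by
  obtain ⟨x, rfl⟩ := isConj_iff.mp h
  have := hf a x⁻¹
  rw [inv_inv] at this
  exact this.symm

lemma c_pow (hc : ∀ g, c * g = g * c) (hc2 : c * c = 1) (hc1 : c ≠ 1) {j : ℕ}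
    (hj : j.Coprime (Nat.card G)) (g : G) : (c * g) ^ j = c * g ^ j := by
  have heven : 2 ∣ Nat.card G := by
    have h1 : orderOf c = 2 := by
      rw [orderOf_eq_prime_iff]
      exact ⟨by rw [pow_two, hc2], hc1⟩
    rw [← h1]
    exact orderOf_dvd_natCard c
  have hodd : Odd j := by
    rw [← Nat.not_even_iff_odd, even_iff_two_dvd]
    intro h
    have := Nat.dvd_gcd h heven
    rw [hj] at this
    exact absurd this (by norm_num)
  rw [(show Commute c g from hc g).mul_pow]
  congr 1
  obtain ⟨t, ht⟩ := hodd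
  rw [ht, pow_add, pow_mul, pow_two, hc2, one_pow, one_mul, pow_one]

theorem twist_of_classCond (hc : ∀ g, c * g = g * c) (hc2 : c * c = 1) (hc1 : c ≠ 1)
    (hG : ClassCond G c) {f : G → ℚ} (hf : IsClass f) {s : ℚ} (hs : ∀ g, f g + f (c * g) = s) :
    Twist f := by
  intro j hj g z hz
  -- the first two kinds of elements
  have key : ∀ g : G, (IsConj (c * g) g ∨
      (∀ g' : G, Subgroup.zpowers g' = Subgroup.zpowers g → IsConj g' g)) →
      f (g ^ j) - f g = 0 := by
    rintro g (h | h)
    · have h1 : f g = s / 2 := by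
        have := hs g
        rw [isClass_conj hf h] at this
        linarith
      have h2 : f (g ^ j) = s / 2 := by
        have h3 : IsConj (c * g ^ j) (g ^ j) := by
          rw [← c_pow hc hc2 hc1 hj]
          exact h.pow j
        have := hs (g ^ j)
        rw [isClass_conj hf h3] at this
        linarith
      rw [h1, h2, sub_self]
    · rw [isClass_conj hf (h _ (zpowers_pow hj g)), sub_self]
  by_cases h3 : IsConj (g * z) g
  · rw [isClass_conj hf h3, isClass_conj hf (h3.pow j)]
  · have hg : f (g ^ j) - f g = 0 := by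
      apply key
      rcases hG g with h | h | h
      · exact Or.inl h
      · exact Or.inr h
      · exact absurd (h z hz) h3
    have hgz : f ((g * z) ^ j) - f (g * z) = 0 := by
      apply key
      rcases hG (g * z) with h | h | h
      · exact Or.inl h
      · exact Or.inr h
      · exfalso
        have := h z⁻¹ (inv_mem hz)
        rw [mul_inv_cancel_right] at this
        exact h3 this.symm
    rw [hg, hgz]

theorem twist_of_classCondInv (hc : ∀ g, c * g = g * c) (hc2 : c * c = 1) (hc1 : c ≠ 1)
    (hG : ClassCondInv G c) {f : G → ℚ} (hf : IsClass f) (hinv : ∀ g, f g⁻¹ = f g) {s : ℚ}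
    (hs : ∀ g, f g + f (c * g) = s) : Twist f := by
  intro j hj g z hz
  have e : ∀ {a b : G}, (IsConj a b ∨ IsConj a b⁻¹) → f a = f b := by
    rintro a b (h | h)
    · exact isClass_conj hf h
    · rw [isClass_conj hf h, hinv]
  have e' : ∀ {a b : G}, (IsConj a b ∨ IsConj a b⁻¹) → f (a ^ j) = f (b ^ j) := by
    rintro a b (h | h)
    · exact isClass_conj hf (h.pow j)
    · rw [isClass_conj hf (h.pow j), inv_pow, hinv]
  have key : ∀ g : G, ((IsConj (c * g) g ∨ IsConj (c * g) g⁻¹) ∨
      (∀ g' : G, Subgroup.zpowers g' = Subgroup.zpowers g → IsConj g' g ∨ IsConj g' g⁻¹)) →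
      f (g ^ j) - f g = 0 := by
    rintro g (h | h)
    · have h1 : f g = s / 2 := by
        have := hs g
        rw [e h] at this
        linarith
      have h2 : f (g ^ j) = s / 2 := by
        have h3 : f (c * g ^ j) = f (g ^ j) := by
          rw [← c_pow hc hc2 hc1 hj]
          exact e' h
        have := hs (g ^ j)
        rw [h3] at this
        linarith
      rw [h1, h2, sub_self]
    · rw [e (h _ (zpowers_pow hj g)), sub_self]
  by_cases h3 : IsConj (g * z) g ∨ IsConj (g * z) g⁻¹
  · rw [e h3, e' h3]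
  · have hg : f (g ^ j) - f g = 0 := by
      apply key
      rcases hG g with h | h | h
      · exact Or.inl h
      · exact Or.inr h
      · exact absurd (h z hz) h3
    have hgz : f ((g * z) ^ j) - f (g * z) = 0 := by
      apply key
      rcases hG (g * z) with h | h | h
      · exact Or.inl h
      · exact Or.inr h
      · exfalso
        have h4 := h z⁻¹ (inv_mem hz)
        rw [mul_inv_cancel_right] at h4
        apply h3
        rcases h4 with h4 | h4
        · exact Or.inl h4.symm
        · right
          obtain ⟨x, hx⟩ := isConj_iff.mp h4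
          -- `x g x⁻¹ = (g z)⁻¹`
          rw [isConj_iff]
          refine ⟨x⁻¹, ?_⟩
          have h5 : g * z = (x * g * x⁻¹)⁻¹ := by rw [hx, inv_inv]
          rw [h5]
          group
    rw [hg, hgz]

/-- Groups all of whose elements satisfy `g ^ 4 = 1` or `g ^ 6 = 1`. -/
lemma zinv_of_exponent (hG : ∀ g : G, g ^ 4 = 1 ∨ g ^ 6 = 1) {f : G → ℚ}
    (hinv : ∀ g, f g⁻¹ = f g) : ZInv f := by
  intro g g' h
  have hg' : g' ∈ Subgroup.zpowers g := h ▸ Subgroup.mem_zpowers g'
  have hg : g ∈ Subgroup.zpowers g' := h ▸ Subgroup.mem_zpowers g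
  suffices hs : g' = g ∨ g' = g⁻¹ by
    rcases hs with rfl | rfl
    · rfl
    · rw [hinv]
  obtain ⟨n, hn⟩ : ∃ n : ℕ, (n = 4 ∨ n = 6) ∧ orderOf g ∣ n := by
    rcases hG g with h | h
    · exact ⟨4, Or.inl rfl, orderOf_dvd_of_pow_eq_one h⟩
    · exact ⟨6, Or.inr rfl, orderOf_dvd_of_pow_eq_one h⟩
  have h6 : g ^ n = 1 := orderOf_dvd_iff_pow_eq_one.mp hn.2
  rw [← mem_powers_iff_mem_zpowers, Submonoid.mem_powers_iff] at hg' hg
  obtain ⟨i, hi⟩ := hg'
  obtain ⟨k, hk⟩ := hg
  -- reduce the exponent
  have hi' : g ^ (i % n) = g' := by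
    rw [← hi]
    conv_rhs => rw [← Nat.div_add_mod i n, pow_add, pow_mul, h6, one_pow, one_mul]
  have hk' : g' ^ (k % n) = g := by
    have h7 : g' ^ n = 1 := by rw [← hi, ← pow_mul, mul_comm, pow_mul, h6, one_pow]
    rw [← hk]
    conv_rhs => rw [← Nat.div_add_mod k n, pow_add, pow_mul, h7, one_pow, one_mul]
  have hn0 : 0 < n := by rcases hn.1 with rfl | rfl <;> norm_num
  have hilt : i % n < n := Nat.mod_lt _ hn0
  have hklt : k % n < n := Nat.mod_lt _ hn0
  have hik : g ^ ((i % n) * (k % n)) = g ^ 1 := by rw [pow_mul, hi', hk', pow_one]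
  rw [pow_eq_pow_iff_modEq] at hik
  -- `g' = g ^ a` where `a b = 1` modulo the order `m` of `g`, a divisor of `4` or `6`
  generalize i % n = a at *
  generalize k % n = b at *
  have hm : orderOf g = 1 ∨ orderOf g = 2 ∨ orderOf g = 3 ∨ orderOf g = 4 ∨ orderOf g = 6 := by
    have h8 := hn.2
    rcases hn.1 with rfl | rfl
    · have := Nat.le_of_dvd (by norm_num) h8
      interval_cases orderOf g <;> omega
    · have := Nat.le_of_dvd (by norm_num) h8
      interval_cases orderOf g <;> omega
  have hclaim : a ≡ 1 [MOD orderOf g] ∨ a + 1 ≡ 0 [MOD orderOf g] := by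
    have hn' : n = 4 ∨ n = 6 := hn.1
    unfold Nat.ModEq at hik ⊢
    rcases hm with h | h | h | h | h <;> rw [h] at hik ⊢ <;> rcases hn' with rfl | rfl <;>
      interval_cases a <;> interval_cases b <;> simp at hik ⊢
  rcases hclaim with h | h
  · left
    rw [← hi']
    have := (pow_eq_pow_iff_modEq (x := g)).mpr h
    rwa [pow_one] at this
  · right
    rw [← hi']
    have := (pow_eq_pow_iff_modEq (x := g)).mpr h
    rw [pow_succ, pow_zero] at this
    exact eq_inv_of_mul_eq_one_left this

end Pool.Agent.Q11.CZ
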