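import Pool.Agent.Q11.CZ.Red2

/-!
# CM types of number fields with values in a Galois CM field
-/

set_option autoImplicit false

open scoped Classical
open NumberField

namespace Pool.Agent.Q11.CZ

section transfer

variable {G : Type*} [Group G] [Fintype G] {c : G}
variable {X Y : Type*} [Fintype X] [Fintype Y] [MulAction G X] [MulAction G Y]
  (e : X ≃ Y) (he : ∀ (g : G) (x : X), e (g • x) = g • e x)

omit [Fintype X] [Fintype Y] in
include he in
lemma a0_map (x : X) (Φ : Finset X) : (a0 (e x) (Φ.map e.toEmbedding) : G → ℚ) = a0 x Φ := by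
  funext g
  unfold a0
  have h1 : ∀ h : G, (h⁻¹ * g * h) • e x ∈ Φ.map e.toEmbedding ↔ (h⁻¹ * g * h) • x ∈ Φ := by
    intro h
    rw [← he]
    simp
  simp only [h1]

omit [Fintype X] [Fintype Y] in
include he in
lemma T_map (Φ : Finset X) : (T (Φ.map e.toEmbedding) : G → ℚ) = T Φ := by
  funext g
  unfold T
  rw [Finset.sum_map]
  refine Finset.sum_congr rfl (fun x _ => ?_)
  exact congrFun (a0_map e he x Φ) g

omit [Fintype G] [Fintype X] [Fintype Y] in
include he in
lemma isHalf_map {Φ : Finset X} (hΦ : IsHalf c Φ) : IsHalf c (Φ.map e.toEmbedding) := by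
  intro y
  obtain ⟨x, rfl⟩ := e.surjective y
  rw [← he]
  simpa using hΦ x

end transfer

variable (K : Type) [Field K] [NumberField K]

/-- `g ψ = g ∘ ψ`. -/
instance act (E : Type) [Field E] [Algebra ℚ E] : MulAction (K ≃ₐ[ℚ] K) (E →ₐ[ℚ] K) where
  smul g ψ := (g : K →ₐ[ℚ] K).comp ψ
  one_smul ψ := by
    apply AlgHom.ext
    intro x
    rfl
  mul_smul g h ψ := by
    apply AlgHom.ext
    intro x
    rfl

lemma act_def {E : Type} [Field E] [Algebra ℚ E] (g : K ≃ₐ[ℚ] K) (ψ : E →ₐ[ℚ] K) :
    g • ψ = (g : K →ₐ[ℚ] K).comp ψ := rfl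

/-- Complex conjugation of a CM field, as an automorphism over `ℚ`. -/
noncomputable def conj [IsCMField K] : K ≃ₐ[ℚ] K :=
  (IsCMField.complexConj K).restrictScalars ℚ

variable {K}

lemma conj_apply [IsCMField K] (x : K) : conj K x = IsCMField.complexConj K x := rfl

lemma emb_conj [IsCMField K] (φ : K →+* ℂ) (x : K) : φ (conj K x) = starRingEnd ℂ (φ x) :=
  IsCMField.complexEmbedding_complexConj K φ x

lemma conj_mul_self [IsCMField K] : conj K * conj K = 1 := by
  apply AlgEquiv.ext
  intro x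
  exact IsCMField.complexConj_apply_apply K x

lemma conj_comm [IsCMField K] (g : K ≃ₐ[ℚ] K) : conj K * g = g * conj K := by
  apply AlgEquiv.ext
  intro x
  obtain ⟨φ⟩ : Nonempty (K →+* ℂ) := inferInstance
  apply φ.injective
  have h1 : φ ((conj K * g) x) = starRingEnd ℂ (φ (g x)) := emb_conj φ (g x)
  have h2 : φ ((g * conj K) x) = starRingEnd ℂ (φ (g x)) :=
    emb_conj (φ.comp (g : K →+* K)) x
  rw [h1, h2]

/-- complex conjugation is not the identity on an imaginary quadratic subfield. -/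
lemma conj_notMem [IsCMField K] (k : IntermediateField ℚ K) [IsTotallyComplex k] :
    conj K ∉ k.fixingSubgroup := by
  intro h
  obtain ⟨φ⟩ : Nonempty (K →+* ℂ) := inferInstance
  set ψ : k →+* ℂ := φ.comp (algebraMap k K) with hψ
  have h1 : ComplexEmbedding.IsReal ψ := by
    rw [ComplexEmbedding.isReal_iff]
    apply RingHom.ext
    intro x
    have h2 : conj K (algebraMap k K x) = algebraMap k K x := by
      rw [IntermediateField.mem_fixingSubgroup_iff] at h
      exact h _ x.2
    have h3 := emb_conj φ (algebraMap k K x)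
    rw [h2] at h3
    exact h3.symm
  have h4 : InfinitePlace.IsReal (InfinitePlace.mk ψ) := ⟨ψ, h1, rfl⟩
  have h5 : InfinitePlace.IsComplex (InfinitePlace.mk ψ) := IsTotallyComplex.isComplex _
  exact InfinitePlace.not_isReal_iff_isComplex.mpr h5 h4

lemma conj_mul_mem [IsGalois ℚ K] [IsCMField K] (k : IntermediateField ℚ K)
    (hk : Module.finrank ℚ k = 2) [IsTotallyComplex k] (g : K ≃ₐ[ℚ] K) :
    conj K * g ∈ k.fixingSubgroup ↔ g ∉ k.fixingSubgroup := by
  have h1 : k.fixingSubgroup.index = 2 := by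
    have h2 : Nat.card k.fixingSubgroup * k.fixingSubgroup.index = Nat.card (K ≃ₐ[ℚ] K) :=
      Subgroup.card_mul_index _
    have h3 : Nat.card k.fixingSubgroup = Module.finrank k K :=
      IsGalois.card_fixingSubgroup_eq_finrank k
    have h4 : Nat.card (K ≃ₐ[ℚ] K) = Module.finrank ℚ K := IsGalois.card_aut_eq_finrank ℚ K
    have h5 : Module.finrank ℚ k * Module.finrank k K = Module.finrank ℚ K :=
      Module.finrank_mul_finrank ℚ k K
    rw [h3, h4, ← h5, hk] at h2
    have h6 : 0 < Module.finrank k K := Module.finrank_pos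
    have h7 : Module.finrank k K * k.fixingSubgroup.index = Module.finrank k K * 2 := by
      rw [h2, mul_comm]
    exact Nat.eq_of_mul_eq_mul_left h6 h7
  rw [Subgroup.mul_mem_iff_of_index_two h1]
  have := conj_notMem k
  tauto

/-- the regular `G`-set is the set of embeddings of `K` into itself. -/
noncomputable def regEquiv : (K ≃ₐ[ℚ] K) ≃ (K →ₐ[ℚ] K) :=
  (Algebra.IsAlgebraic.algEquivEquivAlgHom ℚ K).toEquiv

lemma regEquiv_apply (g : K ≃ₐ[ℚ] K) : regEquiv g = (g : K →ₐ[ℚ] K) := rfl

lemma regEquiv_smul (g x : K ≃ₐ[ℚ] K) : regEquiv (g • x) = g • regEquiv x := by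
  apply AlgHom.ext
  intro y
  rfl

end Pool.Agent.Q11.CZ
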