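import Mathlib

/-!
# Class functions attached to half-systems in finite sets with a group action

`G` is a finite group with a central element `c` of order two, acting on finite sets.
-/

set_option autoImplicit false

open scoped Classical

namespace Pool.Agent.Q11.CZ

variable {G : Type*} [Group G] [Fintype G]

/-- The average of a function over the conjugates of an element. -/
noncomputable def cav (f : G → ℚ) (g : G) : ℚ :=
  (∑ h : G, f (h⁻¹ * g * h)) / Fintype.card G

omit [Fintype G] in
/-- `f` is a class function. -/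
def IsClass (f : G → ℚ) : Prop := ∀ g h : G, f (h⁻¹ * g * h) = f g

lemma card_ne : (Fintype.card G : ℚ) ≠ 0 := by
  have : 0 < Fintype.card G := Fintype.card_pos
  exact_mod_cast this.ne'

lemma cav_of_isClass {f : G → ℚ} (hf : IsClass f) : cav f = f := by
  funext g
  unfold cav
  rw [Finset.sum_congr rfl (fun h _ => hf g h), Finset.sum_const, Finset.card_univ,
    nsmul_eq_mul, mul_comm, mul_div_assoc, div_self card_ne, mul_one]

lemma cav_isClass (f : G → ℚ) : IsClass (cav f) := by
  intro g h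
  unfold cav
  congr 1
  refine Fintype.sum_equiv (Equiv.mulLeft h) _ _ (fun x => ?_)
  congr 1
  simp only [Equiv.coe_mulLeft]
  group

/-- `cav` as a linear map. -/
noncomputable def cavL : (G → ℚ) →ₗ[ℚ] (G → ℚ) where
  toFun := cav
  map_add' f g := by
    funext x
    simp only [cav, Pi.add_apply, Finset.sum_add_distrib, add_div]
  map_smul' r f := by
    funext x
    simp only [cav, Pi.smul_apply, smul_eq_mul, RingHom.id_apply, ← Finset.mul_sum]
    rw [mul_div_assoc]

@[simp] lemma cavL_apply (f : G → ℚ) : cavL f = cav f := rfl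

variable {X : Type*} [Fintype X] [MulAction G X]

/-- Colmez's class function of a point `x` and a subset `Φ` of a `G`-set. -/
noncomputable def a0 (x : X) (Φ : Finset X) (g : G) : ℚ :=
  ((Finset.univ.filter fun h : G => (h⁻¹ * g * h) • x ∈ Φ).card : ℚ) / Fintype.card G

omit [Fintype X] in
lemma a0_eq_cav (x : X) (Φ : Finset X) :
    a0 x Φ = cav (fun g : G => if g • x ∈ Φ then 1 else 0) := by
  funext g
  unfold a0 cav
  rw [Finset.sum_boole]

/-- the function `g ↦ #{x ∈ Φ : g x ∈ Φ}`. -/
noncomputable def R (Φ : Finset X) (g : G) : ℚ := ((Φ.filter fun x => g • x ∈ Φ).card : ℚ)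

/-- The sum of Colmez's functions over the points of `Φ`. -/
noncomputable def T (Φ : Finset X) (g : G) : ℚ := ∑ x ∈ Φ, a0 x Φ g

omit [Fintype X] in
lemma T_eq_cav (Φ : Finset X) : T Φ = cav (R Φ : G → ℚ) := by
  funext g
  unfold T
  rw [Finset.sum_congr rfl (fun x _ => congrFun (a0_eq_cav x Φ) g)]
  unfold cav
  rw [← Finset.sum_div, Finset.sum_comm]
  congr 1
  refine Finset.sum_congr rfl (fun h _ => ?_)
  unfold R
  rw [Finset.sum_boole]

/-- A half-system: it contains exactly one of the two points `x`, `c x`, for every `x`. -/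
def IsHalf (c : G) (Φ : Finset X) : Prop := ∀ x : X, c • x ∈ Φ ↔ x ∉ Φ

section
variable {c : G} (hc : ∀ g, c * g = g * c) (hc2 : c * c = 1)

omit [Fintype X] in
include hc in
lemma a0_add (x : X) {Φ : Finset X} (hΦ : IsHalf c Φ) (g : G) :
    a0 x Φ g + a0 x Φ (c * g) = 1 := by
  rw [a0_eq_cav]
  unfold cav
  rw [← add_div, ← Finset.sum_add_distrib]
  have : ∀ h ∈ (Finset.univ : Finset G), ((if (h⁻¹ * g * h) • x ∈ Φ then (1 : ℚ) else 0) +
      if (h⁻¹ * (c * g) * h) • x ∈ Φ then (1 : ℚ) else 0) = 1 := by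
    intro h _
    have h1 : h⁻¹ * (c * g) * h = c * (h⁻¹ * g * h) := by
      rw [← mul_assoc h⁻¹ c g, ← hc h⁻¹]
      simp only [mul_assoc]
    rw [h1, mul_smul c (h⁻¹ * g * h) x]
    by_cases h2 : (h⁻¹ * g * h) • x ∈ Φ
    · rw [if_pos h2, if_neg]
      · norm_num
      · rw [hΦ]; exact fun h => h h2
    · rw [if_neg h2, if_pos]
      · norm_num
      · rw [hΦ]; exact h2
  rw [Finset.sum_congr rfl this, Finset.sum_const, Finset.card_univ, nsmul_eq_mul, mul_one,
    div_self card_ne]

omit [Fintype X] in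
include hc in
lemma T_add {Φ : Finset X} (hΦ : IsHalf c Φ) (g : G) :
    T Φ g + T Φ (c * g) = Φ.card := by
  unfold T
  rw [← Finset.sum_add_distrib, Finset.sum_congr rfl (fun x _ => a0_add hc x hΦ g)]
  simp

omit [Fintype X] in
lemma a0_isClass (x : X) (Φ : Finset X) : IsClass (a0 x Φ : G → ℚ) := by
  rw [a0_eq_cav]; exact cav_isClass _

omit [Fintype X] in
lemma T_isClass (Φ : Finset X) : IsClass (T Φ : G → ℚ) := by
  rw [T_eq_cav]; exact cav_isClass _

omit [Fintype X] [Fintype G] in
lemma R_inv (Φ : Finset X) (g : G) : R Φ g⁻¹ = R Φ g := by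
  unfold R
  congr 1
  refine Finset.card_bij' (fun x _ => g⁻¹ • x) (fun x _ => g • x) ?_ ?_ ?_ ?_
  · intro x hx
    simp only [Finset.mem_filter] at hx ⊢
    exact ⟨hx.2, by simpa using hx.1⟩
  · intro x hx
    simp only [Finset.mem_filter] at hx ⊢
    exact ⟨hx.2, by simpa using hx.1⟩
  · intro x _; simp
  · intro x _; simp

omit [Fintype X] in
lemma T_inv (Φ : Finset X) (g : G) : T Φ g⁻¹ = T Φ g := by
  rw [T_eq_cav]
  unfold cav
  congr 1
  refine Finset.sum_congr rfl (fun h _ => ?_)
  rw [show h⁻¹ * g⁻¹ * h = (h⁻¹ * g * h)⁻¹ by group, R_inv]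

end

end Pool.Agent.Q11.CZ
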