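import Pool.Agent.Q11.CZ.Fld
import Pool.Agent.Q11.CZ.Ab

/-!
# The main theorems on Colmez's class functions
-/

set_option autoImplicit false

open scoped Classical commutatorElement
open NumberField

namespace Pool.Agent.Q11.CZ

/-- The fixed field of the commutator subgroup is abelian. -/
lemma abelian_fixed {F K : Type} [Field F] [Field K] [Algebra F K] [FiniteDimensional F K]
    [IsGalois F K] :
    IsAbelianGalois F (IntermediateField.fixedField (commutator (K ≃ₐ[F] K))) := by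
  set E := IntermediateField.fixedField (commutator (K ≃ₐ[F] K)) with hE
  have hU : E.fixingSubgroup = commutator (K ≃ₐ[F] K) :=
    IntermediateField.fixingSubgroup_fixedField _
  have hgal : IsGalois F E := IsGalois.of_fixedField_normal_subgroup _
  refine { toIsGalois := hgal, is_comm := ⟨fun a b => ?_⟩ }
  obtain ⟨x, rfl⟩ := AlgEquiv.restrictNormalHom_surjective (F := F) (K₁ := E) K a
  obtain ⟨y, rfl⟩ := AlgEquiv.restrictNormalHom_surjective (F := F) (K₁ := E) K b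
  have h5 : ⁅x, y⁆ ∈ (AlgEquiv.restrictNormalHom E : (K ≃ₐ[F] K) →* (E ≃ₐ[F] E)).ker := by
    rw [IntermediateField.restrictNormalHom_ker, hU]
    exact Subgroup.commutator_mem_commutator (Subgroup.mem_top _) (Subgroup.mem_top _)
  rw [MonoidHom.mem_ker, commutatorElement_def, map_mul, map_mul, map_mul, map_inv,
    map_inv] at h5
  rw [mul_inv_eq_one, mul_inv_eq_iff_eq_mul] at h5
  exact h5

variable {K : Type} [Field K] [NumberField K]

section one

variable [IsGalois ℚ K] [IsCMField K]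

/-- CM types of `K` with values in `K` with at most `r` elements which are not the identity on
`k`. -/
def NearK (k : IntermediateField ℚ K) (r : ℕ) (Φ : Finset (K →ₐ[ℚ] K)) : Prop :=
  IsHalf (conj K) Φ ∧ (Φ.filter fun ψ => ¬ ∀ x ∈ k, ψ x = x).card ≤ r

lemma nearK_map (k : IntermediateField ℚ K) {r : ℕ} {Φ : Finset (K ≃ₐ[ℚ] K)}
    (hΦ : Near (conj K) k.fixingSubgroup r Φ) : NearK k r (Φ.map regEquiv.toEmbedding) := by
  refine ⟨isHalf_map regEquiv regEquiv_smul hΦ.1, ?_⟩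
  rw [Finset.filter_map, Finset.card_map]
  refine le_trans (le_of_eq ?_) hΦ.2
  congr 1
  ext g
  simp only [Finset.mem_filter, Function.comp, Equiv.coe_toEmbedding, regEquiv_apply]
  rw [IntermediateField.mem_fixingSubgroup_iff]
  rfl

theorem span_one (k : IntermediateField ℚ K) (hk : Module.finrank ℚ k = 2) [IsTotallyComplex k]
    (f : (K ≃ₐ[ℚ] K) → ℚ) (hf : IsClass f) (s : ℚ) (hs : ∀ g, f g + f (conj K * g) = s) :
    f ∈ Submodule.span ℚ ({fun _ => 1} ∪ {F : (K ≃ₐ[ℚ] K) → ℚ |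
      ∃ (Φ : Finset (K →ₐ[ℚ] K)) (ψ : K →ₐ[ℚ] K), NearK k 1 Φ ∧ F = a0 ψ Φ}) := by
  have h1 := mem_span_one (c := conj K) conj_mul_self (H := k.fixingSubgroup)
    (conj_mul_mem k hk) f hf s hs
  refine Submodule.span_mono ?_ h1
  rintro F (hF | ⟨Φ, hΦ, rfl⟩)
  · exact Or.inl hF
  · right
    refine ⟨Φ.map regEquiv.toEmbedding, regEquiv 1, nearK_map k hΦ, ?_⟩
    rw [a0_map regEquiv regEquiv_smul]

theorem span_two (k : IntermediateField ℚ K) (hk : Module.finrank ℚ k = 2) [IsTotallyComplex k]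
    (f : (K ≃ₐ[ℚ] K) → ℚ) (hf : IsClass f) (hinv : ∀ g, f g⁻¹ = f g) (s : ℚ)
    (hs : ∀ g, f g + f (conj K * g) = s) :
    f ∈ Submodule.span ℚ ({fun _ => 1} ∪ {F : (K ≃ₐ[ℚ] K) → ℚ |
      ∃ Φ : Finset (K →ₐ[ℚ] K), NearK k 2 Φ ∧ F = T Φ}) := by
  have h1 := mem_span_two (c := conj K) conj_comm conj_mul_self (H := k.fixingSubgroup)
    (conj_mul_mem k hk) f hf hinv s hs
  refine Submodule.span_mono ?_ h1
  rintro F (hF | ⟨Φ, hΦ, rfl⟩)
  · exact Or.inl hF
  · right
    refine ⟨Φ.map regEquiv.toEmbedding, nearK_map k hΦ, ?_⟩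
    rw [T_map regEquiv regEquiv_smul]

end one

section two

variable [IsGalois ℚ K]

lemma exists_lift {E : Type} [Field E] [NumberField E] (ψ φ : E →ₐ[ℚ] K) :
    ∃ g : K ≃ₐ[ℚ] K, g • ψ = φ := by
  letI : Algebra E K := ψ.toRingHom.toAlgebra
  refine ⟨regEquiv.symm (φ.liftNormal K), ?_⟩
  apply AlgHom.ext
  intro x
  have h1 : ∀ φ : K →ₐ[ℚ] K, ∀ y : K, (regEquiv.symm φ) y = φ y := by
    intro φ y
    conv_rhs => rw [← regEquiv.apply_symm_apply φ]
    rfl
  rw [act_def]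
  change (regEquiv.symm (φ.liftNormal K)) (algebraMap E K x) = φ x
  rw [h1]
  exact φ.liftNormal_commutes K x

instance pretrans {E : Type} [Field E] [NumberField E] :
    MulAction.IsPretransitive (K ≃ₐ[ℚ] K) (E →ₐ[ℚ] K) where
  exists_smul_eq ψ φ := exists_lift ψ φ

/-- the inclusion of a subfield. -/
noncomputable def inc (E : IntermediateField ℚ K) : E →ₐ[ℚ] K := (algebraMap E K).toRatAlgHom

omit [IsGalois ℚ K] in
lemma inc_apply (E : IntermediateField ℚ K) (x : E) : inc E x = x := rfl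

omit [IsGalois ℚ K] in
lemma smul_val_iff (E : IntermediateField ℚ K) (g : K ≃ₐ[ℚ] K) :
    g • inc E = inc E ↔ g ∈ E.fixingSubgroup := by
  rw [IntermediateField.mem_fixingSubgroup_iff]
  constructor
  · intro h x hx
    exact congrArg (fun φ : E →ₐ[ℚ] K => φ ⟨x, hx⟩) h
  · intro h
    apply AlgHom.ext
    intro x
    exact h _ x.2

variable [IsCMField K]

variable (K) in
/-- the span of `1` and of the sums over all CM types of the subfields of `K`. -/
noncomputable def avgSpan : Submodule ℚ ((K ≃ₐ[ℚ] K) → ℚ) :=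
  Submodule.span ℚ ({fun _ => 1} ∪ {F : (K ≃ₐ[ℚ] K) → ℚ |
    ∃ (E : Type) (_ : Field E) (_ : NumberField E),
      F = ∑ Φ ∈ halves (conj K) (E →ₐ[ℚ] K), T Φ})

variable (K) in
/-- the span of Colmez's functions of the subfields which are abelian over `ℚ`. -/
noncomputable def abSpan : Submodule ℚ ((K ≃ₐ[ℚ] K) → ℚ) :=
  Submodule.span ℚ {F : (K ≃ₐ[ℚ] K) → ℚ | ∃ (E : Type) (_ : Field E) (_ : NumberField E),
    IsAbelianGalois ℚ E ∧ ∃ (ψ : E →ₐ[ℚ] K) (Φ : Finset (E →ₐ[ℚ] K)),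
      IsHalf (conj K) Φ ∧ F = a0 ψ Φ}

lemma ps_mem (U : Subgroup (K ≃ₐ[ℚ] K)) :
    (fun g => ps U g - ps U (conj K * g)) ∈ avgSpan K := by
  set E := IntermediateField.fixedField U with hE
  have hU : E.fixingSubgroup = U := IntermediateField.fixingSubgroup_fixedField U
  have hst : MulAction.stabilizer (K ≃ₐ[ℚ] K) (inc E) = U := by
    ext g
    rw [MulAction.mem_stabilizer_iff, smul_val_iff, hU]
  have h1 : ∀ g, ps U g = (Finset.univ.filter fun x : K ≃ₐ[ℚ] K => x • inc E = inc E).card *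
      fix (E →ₐ[ℚ] K) g := by
    intro g
    rw [← hst]
    exact ps_stab (inc E) g
  have hone : (fun _ => 1 : (K ≃ₐ[ℚ] K) → ℚ) ∈ avgSpan K :=
    Submodule.subset_span (Or.inl rfl)
  by_cases hne : (halves (conj K) (E →ₐ[ℚ] K)).Nonempty
  · have hN : ((halves (conj K) (E →ₐ[ℚ] K)).card : ℚ) ≠ 0 := by
      have := Finset.card_pos.mpr hne
      exact_mod_cast this.ne'
    have h2 : (∑ Φ ∈ halves (conj K) (E →ₐ[ℚ] K), T Φ) ∈ avgSpan K :=
      Submodule.subset_span (Or.inr ⟨E, inferInstance, inferInstance, rfl⟩)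
    rw [sum_T (c := conj K) conj_comm conj_mul_self] at h2
    set m : ℚ := ((Finset.univ.filter fun x : K ≃ₐ[ℚ] K => x • inc E = inc E).card : ℚ) with hm
    set N : ℚ := ((halves (conj K) (E →ₐ[ℚ] K)).card : ℚ) with hNN
    have h3 : (fun g => ps U g - ps U (conj K * g)) =
        (m * (4 / N)) • (fun g => N / 4 * (Fintype.card (E →ₐ[ℚ] K) + fix (E →ₐ[ℚ] K) g -
          fix (E →ₐ[ℚ] K) (conj K * g))) -
        (m * Fintype.card (E →ₐ[ℚ] K)) • (fun _ => (1 : ℚ)) := by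
      funext g
      simp only [Pi.sub_apply, Pi.smul_apply, smul_eq_mul, h1]
      field_simp
      ring
    rw [h3]
    exact Submodule.sub_mem _ (Submodule.smul_mem _ _ h2) (Submodule.smul_mem _ _ hone)
  · have h2 : ∃ x : E →ₐ[ℚ] K, conj K • x = x := by
      by_contra h
      push Not at h
      exact hne (exists_half conj_mul_self h)
    obtain ⟨x, hx⟩ := h2
    have h3 : ∀ y : E →ₐ[ℚ] K, conj K • y = y := by
      intro y
      obtain ⟨g, rfl⟩ := MulAction.exists_smul_eq (K ≃ₐ[ℚ] K) x y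
      rw [← mul_smul, conj_comm, mul_smul, hx]
    have h4 : (fun g => ps U g - ps U (conj K * g)) = 0 := by
      funext g
      have : fix (E →ₐ[ℚ] K) (conj K * g) = fix (E →ₐ[ℚ] K) g := by
        unfold fix
        congr 2
        ext y
        simp only [Finset.mem_filter, Finset.mem_univ, true_and, mul_smul, h3]
      simp only [h1, this, sub_self, Pi.zero_apply]
    rw [h4]
    exact Submodule.zero_mem _

omit [IsGalois ℚ K] in
lemma halves_sum_props (E : Type) [Field E] [NumberField E] :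
    IsClass (∑ Φ ∈ halves (conj K) (E →ₐ[ℚ] K), T Φ : (K ≃ₐ[ℚ] K) → ℚ) ∧
    (∃ s : ℚ, ∀ g, (∑ Φ ∈ halves (conj K) (E →ₐ[ℚ] K), T Φ : (K ≃ₐ[ℚ] K) → ℚ) g +
      (∑ Φ ∈ halves (conj K) (E →ₐ[ℚ] K), T Φ : (K ≃ₐ[ℚ] K) → ℚ) (conj K * g) = s) ∧
    ZInv (∑ Φ ∈ halves (conj K) (E →ₐ[ℚ] K), T Φ : (K ≃ₐ[ℚ] K) → ℚ) := by
  rw [sum_T (c := conj K) conj_comm conj_mul_self]
  refine ⟨?_, ⟨(halves (conj K) (E →ₐ[ℚ] K)).card / 4 * (2 * Fintype.card (E →ₐ[ℚ] K)), ?_⟩, ?_⟩
  · intro g h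
    have e1 : conj K * (h⁻¹ * g * h) = h⁻¹ * (conj K * g) * h := by
      rw [← mul_assoc h⁻¹ (conj K) g, ← conj_comm h⁻¹]
      simp only [mul_assoc]
    simp only [e1, fix_isClass g h, fix_isClass (conj K * g) h]
  · intro g
    simp only [cc conj_mul_self]
    ring
  · intro g g' h
    simp only [fix_eq_of_zpowers h, fix_eq_of_zpowers (zpowers_c conj_comm conj_mul_self h)]

/-- the three conditions of the first theorem. -/
def CondA (f : (K ≃ₐ[ℚ] K) → ℚ) : Prop :=
  IsClass f ∧ (∃ s : ℚ, ∀ g, f g + f (conj K * g) = s) ∧ ZInv f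

/-- the three conditions of the second theorem. -/
def CondB (f : (K ≃ₐ[ℚ] K) → ℚ) : Prop :=
  IsClass f ∧ (∃ s : ℚ, ∀ g, f g + f (conj K * g) = s) ∧ Twist f

omit [IsGalois ℚ K] in
lemma condA_add {f f' : (K ≃ₐ[ℚ] K) → ℚ} (h : CondA f) (h' : CondA f') : CondA (f + f') := by
  obtain ⟨h1, ⟨s, hs⟩, h3⟩ := h
  obtain ⟨h1', ⟨s', hs'⟩, h3'⟩ := h'
  refine ⟨fun g x => ?_, ⟨s + s', fun g => ?_⟩, fun g g' hg => ?_⟩
  · simp only [Pi.add_apply, h1 g x, h1' g x]
  · simp only [Pi.add_apply]; linarith [hs g, hs' g]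
  · simp only [Pi.add_apply, h3 g g' hg, h3' g g' hg]

omit [IsGalois ℚ K] in
lemma condB_add {f f' : (K ≃ₐ[ℚ] K) → ℚ} (h : CondB f) (h' : CondB f') : CondB (f + f') := by
  obtain ⟨h1, ⟨s, hs⟩, h3⟩ := h
  obtain ⟨h1', ⟨s', hs'⟩, h3'⟩ := h'
  refine ⟨fun g x => ?_, ⟨s + s', fun g => ?_⟩, fun j hj g z hz => ?_⟩
  · simp only [Pi.add_apply, h1 g x, h1' g x]
  · simp only [Pi.add_apply]; linarith [hs g, hs' g]
  · simp only [Pi.add_apply]; linarith [h3 j hj g z hz, h3' j hj g z hz]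

omit [IsGalois ℚ K] in
lemma condA_smul {f : (K ≃ₐ[ℚ] K) → ℚ} (r : ℚ) (h : CondA f) : CondA (r • f) := by
  obtain ⟨h1, ⟨s, hs⟩, h3⟩ := h
  refine ⟨fun g x => ?_, ⟨r * s, fun g => ?_⟩, fun g g' hg => ?_⟩
  · simp only [Pi.smul_apply, h1 g x]
  · simp only [Pi.smul_apply, smul_eq_mul]; rw [← hs g]; ring
  · simp only [Pi.smul_apply, h3 g g' hg]

omit [IsGalois ℚ K] in
lemma condB_smul {f : (K ≃ₐ[ℚ] K) → ℚ} (r : ℚ) (h : CondB f) : CondB (r • f) := by
  obtain ⟨h1, ⟨s, hs⟩, h3⟩ := h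
  refine ⟨fun g x => ?_, ⟨r * s, fun g => ?_⟩, fun j hj g z hz => ?_⟩
  · simp only [Pi.smul_apply, h1 g x]
  · simp only [Pi.smul_apply, smul_eq_mul]; rw [← hs g]; ring
  · simp only [Pi.smul_apply, smul_eq_mul]; rw [← mul_sub, ← mul_sub, h3 j hj g z hz]

omit [IsGalois ℚ K] in
lemma condA_one : CondA (fun _ => 1 : (K ≃ₐ[ℚ] K) → ℚ) :=
  ⟨fun _ _ => rfl, ⟨2, fun _ => by norm_num⟩, fun _ _ _ => rfl⟩

omit [IsGalois ℚ K] in
lemma condB_of_condA {f : (K ≃ₐ[ℚ] K) → ℚ} (h : CondA f) : CondB f :=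
  ⟨h.1, h.2.1, twist_of_zInv h.2.2⟩

/-- **First theorem.** -/
theorem mem_avgSpan_iff (f : (K ≃ₐ[ℚ] K) → ℚ) : f ∈ avgSpan K ↔ CondA f := by
  constructor
  · intro hf
    unfold avgSpan at hf
    induction hf using Submodule.span_induction with
    | mem F hF =>
      rcases hF with hF | ⟨E, _, _, rfl⟩
      · rw [Set.mem_singleton_iff.mp hF]; exact condA_one
      · exact halves_sum_props E
    | zero =>
      have := condA_smul (K := K) 0 condA_one
      rwa [zero_smul] at this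
    | add f f' _ _ h h' => exact condA_add h h'
    | smul r f _ h => exact condA_smul r h
  · rintro ⟨h1, ⟨s, hs⟩, h3⟩
    exact mem_of_zinv (avgSpan K) (Submodule.subset_span (Or.inl rfl)) ps_mem h1 hs h3

omit [IsCMField K] in
/-- commutators act trivially on the embeddings of an abelian field. -/
lemma comm_act {E : Type} [Field E] [NumberField E] [IsAbelianGalois ℚ E] (z : K ≃ₐ[ℚ] K)
    (hz : z ∈ commutator (K ≃ₐ[ℚ] K)) (ψ : E →ₐ[ℚ] K) : z • ψ = ψ := by
  letI : Algebra E K := ψ.toRingHom.toAlgebra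
  have h2 : commutator (K ≃ₐ[ℚ] K) ≤ (AlgEquiv.restrictNormalHom E :
      (K ≃ₐ[ℚ] K) →* (E ≃ₐ[ℚ] E)).ker := by
    rw [commutator_def, Subgroup.commutator_le]
    intro a _ b _
    rw [MonoidHom.mem_ker, commutatorElement_def, map_mul, map_mul, map_mul, map_inv, map_inv,
      mul_comm' (AlgEquiv.restrictNormalHom E a)]
    group
  have h3 := h2 hz
  rw [MonoidHom.mem_ker] at h3
  apply AlgHom.ext
  intro x
  have h4 := AlgEquiv.restrictNormal_commutes z E x
  have h5 : z.restrictNormal E = 1 := h3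
  rw [h5] at h4
  exact h4.symm

/-- **Second theorem.** -/
theorem mem_sup_iff (f : (K ≃ₐ[ℚ] K) → ℚ) : f ∈ avgSpan K ⊔ abSpan K ↔ CondB f := by
  constructor
  · intro hf
    obtain ⟨a, ha, b, hb, rfl⟩ := Submodule.mem_sup.mp hf
    refine condB_add (condB_of_condA ((mem_avgSpan_iff a).mp ha)) ?_
    unfold abSpan at hb
    clear hf ha
    induction hb using Submodule.span_induction with
    | mem F hF =>
      obtain ⟨E, _, _, hE, ψ, Φ, hΦ, rfl⟩ := hF
      refine ⟨a0_isClass ψ Φ, ⟨1, fun g => a0_add conj_comm ψ hΦ g⟩, twist_of_abInv ?_⟩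
      intro g z hz
      have hN : ∀ z ∈ commutator (K ≃ₐ[ℚ] K), ∀ x : E →ₐ[ℚ] K, z • x = x :=
        fun z hz x => comm_act z hz x
      rw [a0_ab hN, a0_ab hN, mul_smul, hN z hz]
    | zero =>
      have := condB_smul (K := K) 0 (condB_of_condA condA_one)
      rwa [zero_smul] at this
    | add f f' _ _ h h' => exact condB_add h h'
    | smul r f _ h => exact condB_smul r h
  · rintro ⟨h1, ⟨s, hs⟩, h3⟩
    have hc1 : conj K ≠ 1 := by
      intro h
      apply IsCMField.complexConj_ne_one K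
      apply AlgEquiv.ext
      intro x
      exact congrArg (fun g : K ≃ₐ[ℚ] K => g x) h
    refine mem_of_twist (c := conj K) conj_comm conj_mul_self hc1 (avgSpan K ⊔ abSpan K)
      ?_ ?_ h1 hs h3
    · intro f s hf hs hz
      exact Submodule.mem_sup_left ((mem_avgSpan_iff f).mpr ⟨hf, ⟨s, hs⟩, hz⟩)
    · intro f s hs hab
      set E := IntermediateField.fixedField (commutator (K ≃ₐ[ℚ] K)) with hE
      have hU : E.fixingSubgroup = commutator (K ≃ₐ[ℚ] K) :=
        IntermediateField.fixingSubgroup_fixedField _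
      have hab' : IsAbelianGalois ℚ E := by
        have key := abelian_fixed (F := ℚ) (K := K)
        convert key
        exact Subsingleton.elim _ _
      refine mem_of_abInv (c := conj K) conj_comm conj_mul_self (avgSpan K ⊔ abSpan K)
        (Submodule.mem_sup_left (Submodule.subset_span (Or.inl rfl))) (inc E)
        (fun z hz x => comm_act z hz x) ?_ ?_ hs hab
      · intro g hg
        rw [smul_val_iff, hU] at hg
        exact hg
      · intro Φ hΦ
        exact Submodule.mem_sup_right (Submodule.subset_span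
          ⟨E, inferInstance, inferInstance, hab', inc E, Φ, hΦ, rfl⟩)

/-- Condition on the classes, for the individual functions. -/
def ClassCond (G : Type) [Group G] (c : G) : Prop := ∀ g : G,
  IsConj (c * g) g ∨ (∀ g' : G, Subgroup.zpowers g' = Subgroup.zpowers g → IsConj g' g) ∨
    ∀ z ∈ commutator G, IsConj (g * z) g

/-- Condition on the classes, for the heights. -/
def ClassCondInv (G : Type) [Group G] (c : G) : Prop := ∀ g : G,
  (IsConj (c * g) g ∨ IsConj (c * g) g⁻¹) ∨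
  (∀ g' : G, Subgroup.zpowers g' = Subgroup.zpowers g → IsConj g' g ∨ IsConj g' g⁻¹) ∨
    ∀ z ∈ commutator G, IsConj (g * z) g ∨ IsConj (g * z) g⁻¹

end two

end Pool.Agent.Q11.CZ
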