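import Pool.Agent.Q11.CZ.Grp

/-!
# Reduction to half-systems which differ from a subgroup in at most one or two elements

`G` is a finite group, `c` a central element of order two, `H` a normal subgroup with
`G = H ⊔ c H`.  The left regular `G`-set is `G` itself.
-/

set_option autoImplicit false

open scoped Classical

namespace Pool.Agent.Q11.CZ

variable {G : Type*} [Group G] [Fintype G] {c : G}

/-- the half-system `(H ∖ S) ∪ c S`, for `S ⊆ H`. -/
noncomputable def flip (c : G) (H : Subgroup G) (S : Finset G) : Finset G :=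
  Finset.univ.filter fun g => (g ∈ H ∧ g ∉ S) ∨ (c * g ∈ H ∧ c * g ∈ S)

lemma mem_flip (H : Subgroup G) (S : Finset G) (g : G) :
    g ∈ flip c H S ↔ (g ∈ H ∧ g ∉ S) ∨ (c * g ∈ H ∧ c * g ∈ S) := by
  simp [flip]

section
variable (hc2 : c * c = 1) {H : Subgroup G} (hH : ∀ g : G, c * g ∈ H ↔ g ∉ H)

include hc2 in
lemma cc (g : G) : c * (c * g) = g := by rw [← mul_assoc, hc2, one_mul]

include hc2 hH in
lemma flip_isHalf (S : Finset G) : IsHalf (X := G) c (flip c H S) := by
  intro g
  simp only [smul_eq_mul]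
  rw [mem_flip, mem_flip, cc hc2, hH]
  tauto

include hH in
lemma flip_filter_card (S : Finset G) :
    ((flip c H S).filter fun g => g ∉ H).card ≤ S.card := by
  refine Finset.card_le_card_of_injOn (fun g => c * g) ?_ ?_
  · intro g hg
    simp only [Finset.coe_filter, Set.mem_setOf_eq, mem_flip] at hg
    rcases hg.1 with h | h
    · exact absurd h.1 hg.2
    · exact h.2
  · intro a _ b _ hab
    exact mul_left_cancel hab

/-- `δ_x - δ_{c x}`. -/
noncomputable def dl (c x : G) (g : G) : ℚ := (if g = x then 1 else 0) - (if g = c * x then 1 else 0)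

include hc2 hH in
/-- decomposition of an odd function. -/
lemma odd_decomp (u : G → ℚ) (hu : ∀ g, u (c * g) = - u g) :
    u = ∑ x ∈ Finset.univ.filter (fun x : G => x ∈ H), u x • dl c x := by
  funext g
  rw [Finset.sum_apply]
  simp only [Pi.smul_apply, smul_eq_mul, dl, mul_sub, mul_ite, mul_one, mul_zero]
  rw [Finset.sum_sub_distrib]
  have h1 : (∑ x ∈ Finset.univ.filter (fun x : G => x ∈ H), if g = x then u x else 0) =
      if g ∈ H then u g else 0 := by
    rw [Finset.sum_ite_eq]
    simp
  have h2 : (∑ x ∈ Finset.univ.filter (fun x : G => x ∈ H), if g = c * x then u x else 0) =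
      if g ∈ H then 0 else u (c * g) := by
    have : ∀ x : G, (g = c * x) ↔ (c * g = x) := by
      intro x
      constructor
      · rintro rfl; exact cc hc2 x
      · rintro rfl; exact (cc hc2 g).symm
    simp only [this]
    rw [Finset.sum_ite_eq]
    simp only [Finset.mem_filter, Finset.mem_univ, true_and, hH]
    by_cases h : g ∈ H <;> simp [h]
  rw [h1, h2]
  by_cases h : g ∈ H
  · simp [h]
  · simp [h, hu]

/-- the left regular half-systems with at most `r` elements outside `H`. -/
def Near (c : G) (H : Subgroup G) (r : ℕ) (Φ : Finset G) : Prop :=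
  IsHalf (X := G) c Φ ∧ (Φ.filter fun g => g ∉ H).card ≤ r

include hc2 hH in
lemma near_flip (S : Finset G) : Near c H S.card (flip c H S) :=
  ⟨flip_isHalf hc2 hH S, flip_filter_card hH S⟩

lemma Near.mono {r r' : ℕ} (h : r ≤ r') {Φ : Finset G} (hΦ : Near c H r Φ) : Near c H r' Φ :=
  ⟨hΦ.1, hΦ.2.trans h⟩

include hc2 hH in
lemma ind_sub (x : G) (hx : x ∈ H) :
    dl c x = (fun g => (if g ∈ flip c H ∅ then (1 : ℚ) else 0)) -
      (fun g => (if g ∈ flip c H {x} then (1 : ℚ) else 0)) := by
  funext g
  simp only [Pi.sub_apply, dl, mem_flip, Finset.notMem_empty, not_false_eq_true, and_true,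
    and_false, or_false, Finset.mem_singleton]
  have hcx : c * x ∉ H := by rw [hH]; exact fun h => h hx
  by_cases h1 : g = x
  · subst h1
    have h2 : g ≠ c * g := by
      intro h; rw [h] at hx; exact hcx (by simpa using hx)
    have h3 : c * g ≠ g := fun h => h2 h.symm
    simp [hx, h2, h3]
  · by_cases h2 : g = c * x
    · subst h2
      simp [hcx, h1, cc hc2, hx]
    · have h3 : c * g ≠ x := by
        rintro rfl
        exact h2 (cc hc2 g).symm
      simp [h1, h2, h3]

include hc2 hH in
/-- Every class function `f` with `f(g) + f(c g)` constant is a combination of `1` and of Colmez's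
functions of half-systems of `G` with at most one element outside `H`. -/
theorem mem_span_one (f : G → ℚ) (hf : IsClass f) (s : ℚ) (hs : ∀ g, f g + f (c * g) = s) :
    f ∈ Submodule.span ℚ ({fun _ => 1} ∪
      {F : G → ℚ | ∃ Φ : Finset G, Near c H 1 Φ ∧ F = a0 (1 : G) Φ}) := by
  set W := Submodule.span ℚ ({fun _ => 1} ∪
      {F : G → ℚ | ∃ Φ : Finset G, Near c H 1 Φ ∧ F = a0 (1 : G) Φ}) with hW
  have hone : (fun _ => 1 : G → ℚ) ∈ W := Submodule.subset_span (Or.inl rfl)
  have hnear : ∀ Φ : Finset G, Near c H 1 Φ → a0 (1 : G) Φ ∈ W := fun Φ h =>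
    Submodule.subset_span (Or.inr ⟨Φ, h, rfl⟩)
  have hdl : ∀ x ∈ H, cav (dl c x) ∈ W := by
    intro x hx
    rw [ind_sub hc2 hH x hx, ← cavL_apply, map_sub, cavL_apply, cavL_apply]
    have e1 : cav (fun g => if g ∈ flip c H ∅ then (1 : ℚ) else 0) =
        a0 (1 : G) (flip c H ∅) := by
      rw [a0_eq_cav]; simp
    have e2 : cav (fun g => if g ∈ flip c H {x} then (1 : ℚ) else 0) =
        a0 (1 : G) (flip c H {x}) := by
      rw [a0_eq_cav]; simp
    rw [e1, e2]
    exact W.sub_mem (hnear _ ((near_flip hc2 hH ∅).mono (by simp)))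
      (hnear _ ((near_flip hc2 hH {x}).mono (by simp)))
  set u : G → ℚ := f - (s / 2) • (fun _ => 1) with hu
  have hodd : ∀ g, u (c * g) = - u g := by
    intro g
    simp only [hu, Pi.sub_apply, Pi.smul_apply, smul_eq_mul, mul_one]
    linarith [hs g]
  have hcls : IsClass u := by
    intro g h
    simp only [hu, Pi.sub_apply, Pi.smul_apply, smul_eq_mul, mul_one, hf g h]
  have h1 : u = ∑ x ∈ Finset.univ.filter (fun x : G => x ∈ H), u x • cav (dl c x) := by
    conv_lhs => rw [← cav_of_isClass hcls, ← cavL_apply, odd_decomp hc2 hH u hodd]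
    rw [map_sum]
    refine Finset.sum_congr rfl (fun x _ => ?_)
    rw [map_smul, cavL_apply]
  have h2 : u ∈ W := by
    rw [h1]
    refine W.sum_mem (fun x hx => W.smul_mem _ (hdl x ?_))
    simpa using hx
  have h3 : f = u + (s / 2) • (fun _ => 1) := by rw [hu]; simp
  rw [h3]
  exact W.add_mem h2 (W.smul_mem _ hone)

end

end Pool.Agent.Q11.CZ
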